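import Pool.Agent.Q97.UM.Stm6
import Pool.Agent.Q210.UM.Wnd

/-!
# Project UM2, job ED: the universal density bound for all shifts
-/

set_option autoImplicit false

namespace Pool.Agent.Q222.UM

open Filter Topology MeasureTheory Set
open Pool.Agent.Q97.UM Pool.Agent.Q210.UM

lemma cz_eq (hZ : S_ZF2) (t r α : ℝ) : cz t r α =
    ∑ ρ ∈ (hZ.1 t r).toFinset, (if α ≤ |ρ.re - 1 / 2| then (analyticOrderNatAt riemannZeta ρ : ℝ)
      else 0) := by
  classical
  have hfin : {ρ : ℂ | ρ ∈ Zw t r ∧ α ≤ |ρ.re - 1 / 2|}.Finite :=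
    (hZ.1 t r).subset fun ρ hρ => hρ.1
  unfold cz
  rw [finsum_mem_eq_finite_toFinset_sum _ hfin, ← Finset.sum_filter]
  refine Finset.sum_congr ?_ fun _ _ => rfl
  ext ρ
  rw [Set.Finite.mem_toFinset, Finset.mem_filter, Set.Finite.mem_toFinset]
  rfl

lemma cz_nonneg (hZ : S_ZF2) (t r α : ℝ) : 0 ≤ cz t r α := by
  rw [cz_eq hZ]
  refine Finset.sum_nonneg fun ρ _ => ?_
  split_ifs
  · exact Nat.cast_nonneg _
  · exact le_rfl

lemma cz_le (hZ : S_ZF2) (t r α : ℝ) : cz t r α ≤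
    ({t : ℝ | ∃ ρ ∈ Zw t r, α ≤ |ρ.re - 1 / 2|}).indicator 1 t * (nz t r : ℝ) := by
  classical
  rw [cz_eq hZ]
  by_cases h : t ∈ {t : ℝ | ∃ ρ ∈ Zw t r, α ≤ |ρ.re - 1 / 2|}
  · rw [indicator_of_mem h, nz_eq hZ, Pi.one_apply, one_mul]
    push_cast
    refine Finset.sum_le_sum fun ρ _ => ?_
    split_ifs
    · exact le_rfl
    · exact Nat.cast_nonneg _
  · rw [indicator_of_notMem h, zero_mul]
    refine (Finset.sum_eq_zero fun ρ hρ => ?_).le
    rw [if_neg]
    intro h2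
    exact h ⟨ρ, (Set.Finite.mem_toFinset _).1 hρ, h2⟩

lemma cz_cover (hZ : S_ZF2) {t r w α : ℝ} (hr : 0 < r) (hw : 0 ≤ w) :
    cz t w α ≤ ∑ j ∈ Finset.range (⌈w / r⌉₊ + 1), cz (t + (-w + r + 2 * r * j)) r α := by
  classical
  set F : ℂ → ℝ := fun ρ => if α ≤ |ρ.re - 1 / 2| then (analyticOrderNatAt riemannZeta ρ : ℝ)
      else 0 with hF
  have hF0 : ∀ ρ, 0 ≤ F ρ := fun ρ => by
    rw [hF]
    simp only
    split_ifs
    · exact Nat.cast_nonneg _
    · exact le_rfl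
  have e1 : ∀ t r : ℝ, cz t r α = ∑ ρ ∈ (hZ.1 t r).toFinset, F ρ := fun t r => cz_eq hZ t r α
  rw [e1]
  have h1 : ∀ ρ ∈ (hZ.1 t w).toFinset, F ρ ≤
      ∑ j ∈ Finset.range (⌈w / r⌉₊ + 1), (if ρ ∈ Zw (t + (-w + r + 2 * r * j)) r then F ρ else 0) := by
    intro ρ hρ
    rw [Set.Finite.mem_toFinset] at hρ
    obtain ⟨h0, h1, h2, h3⟩ := hρ
    obtain ⟨j, hj, hj2⟩ := cover hr hw h3
    have h4 : ρ ∈ Zw (t + (-w + r + 2 * r * j)) r := by
      refine ⟨h0, h1, h2, ?_⟩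
      rw [← sub_sub]
      exact hj2
    have h5 := Finset.single_le_sum (f := fun j : ℕ =>
      (if ρ ∈ Zw (t + (-w + r + 2 * r * j)) r then F ρ else 0))
      (fun i _ => by
        split_ifs
        · exact hF0 ρ
        · exact le_rfl) hj
    simp only [if_pos h4] at h5
    exact h5
  refine (Finset.sum_le_sum h1).trans ?_
  rw [Finset.sum_comm]
  refine Finset.sum_le_sum fun j _ => ?_
  rw [e1, ← Finset.sum_filter]
  refine Finset.sum_le_sum_of_subset_of_nonneg (fun ρ hρ => ?_) fun ρ _ _ => hF0 ρ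
  rw [Finset.mem_filter] at hρ
  rw [Set.Finite.mem_toFinset]
  exact hρ.2

/-- summing the shifted weights, without a measurability assumption on the left hand side -/
lemma comb' (hD : S_DPM) {T M B : ℝ} (hT : 0 < T) {g : ℝ → ℝ} (hg : Measurable g)
    (h0 : ∀ s, 0 ≤ g s) (hM : ∀ s, T / 2 ≤ s → s ≤ 4 * T → g s ≤ M) (N : ℕ) (hB0 : 0 ≤ B)
    (hB : ∀ T' : ℝ, (T' = T / 2 ∨ T' = T ∨ T' = 2 * T) → ∀ b : ℕ → ℂ,
      ∫ s in T'..(2 * T'), g s * ‖dp N b s‖ ^ 2 ≤ B * N2 N b) (b : ℕ → ℂ) {n : ℕ} {x : ℕ → ℝ}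
    (hx : ∀ j ∈ Finset.range n, |x j| ≤ T / 2) {G : ℝ → ℝ}
    (hle : ∀ t, T ≤ t → t ≤ 2 * T → G t ≤ ∑ j ∈ Finset.range n, g (t + x j)) :
    ∫ t in T..(2 * T), G t * ‖dp N b t‖ ^ 2 ≤ n * (3 * B * N2 N b) := by
  have hV := V_cont hD N b
  have hV0 : ∀ s : ℝ, 0 ≤ ‖dp N b s‖ ^ 2 := fun s => sq_nonneg _
  have hNb := N2_nonneg N b
  by_cases i2 : IntervalIntegrable (fun t => G t * ‖dp N b t‖ ^ 2) volume T (2 * T)
  swap
  · rw [intervalIntegral.integral_undef i2]
    positivity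
  have hsh : ∀ j ∈ Finset.range n, ∀ s, T ≤ s → s ≤ 2 * T → g (s + x j) ≤ M := by
    intro j hj s h1 h2
    obtain ⟨h3, h4⟩ := abs_le.1 (hx j hj)
    exact hM _ (by linarith) (by linarith)
  have i1 : ∀ j ∈ Finset.range n,
      IntervalIntegrable (fun t => g (t + x j) * ‖dp N b t‖ ^ 2) volume T (2 * T) := by
    intro j hj
    exact gint (hg.comp (measurable_id.add_const _)) (by linarith) (fun s => h0 _) (hsh j hj) hV hV0
  have e1 : ∫ t in T..(2 * T), ∑ j ∈ Finset.range n, g (t + x j) * ‖dp N b t‖ ^ 2 =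
      ∑ j ∈ Finset.range n, ∫ t in T..(2 * T), g (t + x j) * ‖dp N b t‖ ^ 2 :=
    intervalIntegral.integral_finsetSum i1
  have i3 : IntervalIntegrable (fun t => ∑ j ∈ Finset.range n, g (t + x j) * ‖dp N b t‖ ^ 2)
      volume T (2 * T) := by
    have := IntervalIntegrable.sum (Finset.range n) i1
    refine this.congr fun s _ => ?_
    simp [Finset.sum_apply]
  calc ∫ t in T..(2 * T), G t * ‖dp N b t‖ ^ 2
      ≤ ∫ t in T..(2 * T), ∑ j ∈ Finset.range n, g (t + x j) * ‖dp N b t‖ ^ 2 := by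
        refine intervalIntegral.integral_mono_on (by linarith) i2 i3 fun t ht => ?_
        rw [← Finset.sum_mul]
        exact mul_le_mul_of_nonneg_right (hle t ht.1 ht.2) (hV0 t)
    _ = ∑ j ∈ Finset.range n, ∫ t in T..(2 * T), g (t + x j) * ‖dp N b t‖ ^ 2 := e1
    _ ≤ ∑ j ∈ Finset.range n, 3 * B * N2 N b :=
        Finset.sum_le_sum fun j hj => shift hD hT (hx j hj) hg h0 hM N hB b
    _ = n * (3 * B * N2 N b) := by simp

/-- the layer cake formula for counts on a set -/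
lemma cakeQ (hZ : S_ZF2) {r T' : ℝ} (hT' : 0 < T') {C c : ℝ} (hC : 0 ≤ C) (hc : 0 < c)
    {V : ℝ → ℝ} (hV : Continuous V) (hV0 : ∀ s, 0 ≤ V s) {Nb : ℝ} (hNb : 0 ≤ Nb) {Q : Set ℝ}
    (mQ : MeasurableSet Q) (K₀ : ℕ) (hK₀ : ∀ s, T' ≤ s → s ≤ 2 * T' → nz s r ≤ K₀)
    (h : ∀ K : ℕ, ∫ t in T'..(2 * T'), (({t : ℝ | K ≤ nz t r}).indicator (1 : ℝ → ℝ) t *
      Q.indicator 1 t) * V t ≤ C * Real.exp (-(c * K)) * T' * Nb) :
    ∫ t in T'..(2 * T'), (Q.indicator 1 t * (nz t r : ℝ)) * V t ≤ C / c * T' * Nb := by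
  classical
  have hm : ∀ K : ℕ, MeasurableSet {t : ℝ | K ≤ nz t r} := hZ.2.1 r
  have e1 : ∀ t : ℝ, T' ≤ t → t ≤ 2 * T' → (nz t r : ℝ) =
      ∑ K ∈ Finset.range K₀, ({t : ℝ | K + 1 ≤ nz t r}).indicator 1 t := by
    intro t h1 h2
    have h3 := hK₀ t h1 h2
    have : ∀ K ∈ Finset.range K₀, ({t : ℝ | K + 1 ≤ nz t r}).indicator (1 : ℝ → ℝ) t =
        if K < nz t r then 1 else 0 := by
      intro K _
      by_cases hK : K + 1 ≤ nz t r
      · rw [indicator_of_mem (by exact hK), if_pos (by omega)]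
        rfl
      · rw [indicator_of_notMem (by exact hK), if_neg (by omega)]
    rw [Finset.sum_congr rfl this, Finset.sum_boole]
    congr 1
    have h4 : (Finset.range K₀).filter (fun K => K < nz t r) = Finset.range (nz t r) := by
      ext K
      simp only [Finset.mem_filter, Finset.mem_range]
      omega
    rw [h4, Finset.card_range]
  have hi : ∀ K ∈ Finset.range K₀, IntervalIntegrable
      (fun t => (({t : ℝ | K + 1 ≤ nz t r}).indicator (1 : ℝ → ℝ) t * Q.indicator 1 t) * V t)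
      volume T' (2 * T') := by
    intro K _
    refine gint (M := 1) ((measurable_one.indicator (hm (K + 1))).mul (measurable_one.indicator mQ))
      (by linarith) (fun s => mul_nonneg (indicator_nonneg (fun _ _ => zero_le_one) s)
        (indicator_nonneg (fun _ _ => zero_le_one) s))
      (fun s _ _ => mul_le_one₀ (indicator_le_self' (fun _ _ => zero_le_one) s)
        (indicator_nonneg (fun _ _ => zero_le_one) s)
        (indicator_le_self' (fun _ _ => zero_le_one) s)) hV hV0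
  have e2 : ∫ t in T'..(2 * T'), (Q.indicator 1 t * (nz t r : ℝ)) * V t =
      ∑ K ∈ Finset.range K₀, ∫ t in T'..(2 * T'),
        (({t : ℝ | K + 1 ≤ nz t r}).indicator (1 : ℝ → ℝ) t * Q.indicator 1 t) * V t := by
    rw [← intervalIntegral.integral_finsetSum hi]
    refine intervalIntegral.integral_congr fun t ht => ?_
    rw [uIcc_of_le (by linarith)] at ht
    change (Q.indicator 1 t * (nz t r : ℝ)) * V t = ∑ K ∈ Finset.range K₀,
      (({t : ℝ | K + 1 ≤ nz t r}).indicator (1 : ℝ → ℝ) t * Q.indicator 1 t) * V t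
    rw [e1 t ht.1 ht.2, ← Finset.sum_mul, ← Finset.sum_mul]
    ring
  have h5 : ∀ K ∈ Finset.range K₀, ∫ t in T'..(2 * T'),
      (({t : ℝ | K + 1 ≤ nz t r}).indicator (1 : ℝ → ℝ) t * Q.indicator 1 t) * V t ≤
      C * T' * Nb * (Real.exp (-c) * Real.exp (-c) ^ K) := by
    intro K _
    have := h (K + 1)
    refine this.trans (le_of_eq ?_)
    rw [← pow_succ', ← Real.exp_nat_mul]
    push_cast
    rw [show ((K : ℝ) + 1) * -c = -(c * ((K : ℝ) + 1)) by ring]
    ring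
  rw [e2]
  refine (Finset.sum_le_sum h5).trans ?_
  rw [← Finset.mul_sum, ← Finset.mul_sum]
  have h6 : Real.exp (-c) * ∑ K ∈ Finset.range K₀, Real.exp (-c) ^ K ≤ 1 / c := by
    have h7 : Real.exp (-c) < 1 := by
      rw [Real.exp_lt_one_iff]
      linarith
    have h8 : 0 < Real.exp (-c) := Real.exp_pos _
    have h9 : ∑ K ∈ Finset.range K₀, Real.exp (-c) ^ K ≤ (1 - Real.exp (-c))⁻¹ := by
      rw [← tsum_geometric_of_lt_one h8.le h7]
      exact (summable_geometric_of_lt_one h8.le h7).sum_le_tsum _ (fun i _ => by positivity)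
    calc Real.exp (-c) * ∑ K ∈ Finset.range K₀, Real.exp (-c) ^ K
          ≤ Real.exp (-c) * (1 - Real.exp (-c))⁻¹ := mul_le_mul_of_nonneg_left h9 h8.le
      _ ≤ 1 / c := by
          rw [← div_eq_mul_inv, div_le_div_iff₀ (by linarith) hc]
          have h10 : c + 1 ≤ Real.exp c := Real.add_one_le_exp c
          have h11 : Real.exp (-c) * Real.exp c = 1 := by
            rw [← Real.exp_add]
            simp
          nlinarith
  calc C * T' * Nb * (Real.exp (-c) * ∑ K ∈ Finset.range K₀, Real.exp (-c) ^ K)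
        ≤ C * T' * Nb * (1 / c) := mul_le_mul_of_nonneg_left h6 (by positivity)
    _ = C / c * T' * Nb := by ring

theorem t_ED : J_ED := by
  intro _ hD hZ θ c C hθ0 hθ1 hc hC hTB
  unfold TailB at hTB
  refine ⟨48 * (C / c), by positivity, ?_⟩
  have hT1 := (tendsto_id.atTop_div_const (two_pos : (0 : ℝ) < 2)).eventually hTB
  have hT2 := (tendsto_id.const_mul_atTop (two_pos : (0 : ℝ) < 2)).eventually hTB
  unfold EDB
  filter_upwards [hT1, hTB, hT2, eventually_ge_atTop (Real.exp 4)] with T h1 h2 h3 hT N hN b X A hX hA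
  simp only [id] at h1 h3
  have hT4 : (5 : ℝ) ≤ T := by
    have := Real.add_one_le_exp (4 : ℝ)
    linarith
  have hT0 : 0 < T := by linarith
  have hL : 4 ≤ Real.log T := by
    rw [Real.le_log_iff_exp_le hT0]
    exact hT
  have hlog2 : Real.log 2 ≤ 1 := by
    have := Real.log_two_lt_d9
    linarith
  have hlog2p : 0 < Real.log 2 := Real.log_pos one_lt_two
  have el1 : Real.log (T / 2) = Real.log T - Real.log 2 := Real.log_div hT0.ne' two_ne_zero
  have el2 : Real.log (2 * T) = Real.log 2 + Real.log T := Real.log_mul two_ne_zero hT0.ne'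
  have el3 : Real.log (4 * T) = 2 * Real.log 2 + Real.log T := by
    rw [Real.log_mul four_ne_zero hT0.ne', show (4 : ℝ) = 2 ^ 2 by norm_num, Real.log_pow]
    push_cast
    ring
  set r : ℝ := 1 / Real.log (4 * T) with hr
  set w : ℝ := 1 / Real.log T with hw
  have hL4 : 4 ≤ Real.log (4 * T) := by linarith
  have hr0 : 0 < r := by positivity
  have hw0 : 0 ≤ w := by positivity
  have hrq : r ≤ 1 / 4 := by
    rw [hr]
    exact one_div_le_one_div_of_le (by norm_num) hL4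
  have hwq : w ≤ 1 / 4 := by
    rw [hw]
    exact one_div_le_one_div_of_le (by norm_num) hL
  -- the three scales
  have key : ∀ T' : ℝ, (T' = T / 2 ∨ T' = T ∨ T' = 2 * T) → 0 < T' ∧ T' ≤ 2 * T ∧ T / 2 ≤ T' ∧ Real.log T / 2 ≤ Real.log T' ∧
      Real.log T' ≤ Real.log (4 * T) ∧ (N : ℝ) ≤ T' ^ θ ∧ ∀ b : ℕ → ℂ,
      (∀ A : ℝ, 0 ≤ A → ∫ t in {t : ℝ | T' ≤ t ∧ t ≤ 2 * T' ∧ ∃ ρ ∈ Zw t (1 / Real.log T'), A / Real.log T' ≤ |ρ.re - 1 / 2|},
        ‖dp N b t‖ ^ 2 ≤ C * Real.exp (-(c * A)) * T' * N2 N b) ∧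
      (∀ K : ℕ, ∫ t in {t : ℝ | T' ≤ t ∧ t ≤ 2 * T' ∧ K ≤ nz t (1 / Real.log T')}, ‖dp N b t‖ ^ 2 ≤
        C * Real.exp (-(c * K)) * T' * N2 N b) := by
    intro T' hT'
    have k1 : 0 < T' ∧ T' ≤ 2 * T ∧ T / 2 ≤ T' ∧ Real.log T / 2 ≤ Real.log T' ∧ Real.log T' ≤ Real.log (4 * T) := by
      rcases hT' with h | h | h
      · rw [h, el1, el3]
        exact ⟨by linarith, by linarith, by linarith, by linarith, by linarith⟩
      · rw [h, el3]
        exact ⟨by linarith, by linarith, by linarith, by linarith, by linarith⟩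
      · rw [h, el2, el3]
        exact ⟨by linarith, by linarith, by linarith, by linarith, by linarith⟩
    obtain ⟨k2, k3, k4, k5, k6⟩ := k1
    have k7 : (N : ℝ) ≤ T' ^ θ := by
      refine hN.trans ?_
      rw [Real.rpow_def_of_pos hT0, Real.rpow_def_of_pos k2]
      refine Real.exp_le_exp.2 ?_
      nlinarith
    refine ⟨k2, k3, k4, k5, k6, k7, ?_⟩
    rcases hT' with h | h | h
    · rw [h] at k7 ⊢
      exact h1 N k7
    · rw [h] at k7 ⊢
      exact h2 N k7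
    · rw [h] at k7 ⊢
      exact h3 N k7
  have hn : ((⌈w / r⌉₊ + 1 : ℕ) : ℝ) ≤ 4 := by
    have h5 : (⌈w / r⌉₊ : ℝ) < w / r + 1 := Nat.ceil_lt_add_one (by positivity)
    have h6 : w / r ≤ 2 := by
      rw [hw, hr, div_div_eq_mul_div, div_one, div_mul_eq_mul_div, div_le_iff₀ (by linarith), el3]
      nlinarith
    push_cast
    linarith
  have hV : ∀ b : ℕ → ℂ, Continuous fun t : ℝ => ‖dp N b t‖ ^ 2 := fun b => V_cont hD N b
  have hNb : ∀ b : ℕ → ℂ, 0 ≤ N2 N b := fun b => N2_nonneg N b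
  have hrT : ∀ T' : ℝ, (T' = T / 2 ∨ T' = T ∨ T' = 2 * T) → r ≤ 1 / Real.log T' := by
    intro T' hT'
    obtain ⟨k2, k3, k4, k5, k6, k7, k8⟩ := key T' hT'
    exact one_div_le_one_div_of_le (by linarith) k6
  set α : ℝ := A / Real.log T with hα
  set Q : Set ℝ := {t : ℝ | ∃ ρ ∈ Zw t r, α ≤ |ρ.re - 1 / 2|} with hQ
  have mQ : MeasurableSet Q := hZ.2.2 r α
  have mn : Measurable (fun t => (nz t r : ℝ)) := by
    refine measurable_from_nat.comp (measurable_of_Ici fun k => ?_)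
    exact hZ.2.1 r k
  -- one window
  have h5 : ∀ T' : ℝ, (T' = T / 2 ∨ T' = T ∨ T' = 2 * T) → ∀ b : ℕ → ℂ,
      ∫ s in T'..(2 * T'), (Q.indicator 1 s * (nz s r : ℝ)) * ‖dp N b s‖ ^ 2 ≤
        (4 * (C / c) * Real.exp (-(c / 4 * A)) * T) * N2 N b := by
    intro T' hT' b
    obtain ⟨k2, k3, k4, k5, k6, k7, k8⟩ := key T' hT'
    have hlT : 0 < Real.log T' := by linarith
    set A' : ℝ := A * Real.log T' / Real.log T with hA'
    have hA'0 : 0 ≤ A' := by positivity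
    have hAA : A / 2 ≤ A' := by
      rw [hA', le_div_iff₀ (by linarith)]
      nlinarith
    have hAlog : A' / Real.log T' = α := by
      rw [hα, hA']
      field_simp
    have h7 : ∀ K : ℕ, ∫ t in T'..(2 * T'), (({t : ℝ | K ≤ nz t r}).indicator (1 : ℝ → ℝ) t *
        Q.indicator 1 t) * ‖dp N b t‖ ^ 2 ≤
        (C * Real.exp (-(c / 4 * A))) * Real.exp (-(c / 2 * K)) * T' * N2 N b := by
      intro K
      have mK : MeasurableSet {t : ℝ | K ≤ nz t r} := hZ.2.1 r K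
      have e3 : ∫ t in T'..(2 * T'), (({t : ℝ | K ≤ nz t r}).indicator (1 : ℝ → ℝ) t *
          Q.indicator 1 t) * ‖dp N b t‖ ^ 2 =
          ∫ t in {t : ℝ | T' ≤ t ∧ t ≤ 2 * T' ∧ t ∈ {t : ℝ | K ≤ nz t r} ∩ Q}, ‖dp N b t‖ ^ 2 := by
        rw [set_int k2.le (mK.inter mQ)]
        refine intervalIntegral.integral_congr fun t _ => ?_
        rw [Set.inter_indicator_one]
        rfl
      rw [e3]
      have mS : ∀ S : Set ℝ, S ⊆ Icc T' (2 * T') → IntegrableOn (fun t => ‖dp N b t‖ ^ 2) S :=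
        fun S hS => ((hV b).integrableOn_Icc).mono_set hS
      have b1 : ∫ t in {t : ℝ | T' ≤ t ∧ t ≤ 2 * T' ∧ t ∈ {t : ℝ | K ≤ nz t r} ∩ Q},
          ‖dp N b t‖ ^ 2 ≤ C * Real.exp (-(c * K)) * T' * N2 N b := by
        refine le_trans ?_ ((k8 b).2 K)
        refine setIntegral_mono_set (mS _ (fun t ht => ⟨ht.1, ht.2.1⟩))
          (Eventually.of_forall fun t => sq_nonneg _) (LE.le.eventuallyLE ?_)
        rintro t ⟨t1, t2, t3, -⟩
        exact ⟨t1, t2, le_trans t3 (nz_mono hZ (Zw_sub (by simpa using hrT T' hT')))⟩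
      have b2 : ∫ t in {t : ℝ | T' ≤ t ∧ t ≤ 2 * T' ∧ t ∈ {t : ℝ | K ≤ nz t r} ∩ Q},
          ‖dp N b t‖ ^ 2 ≤ C * Real.exp (-(c * A')) * T' * N2 N b := by
        refine le_trans ?_ ((k8 b).1 A' hA'0)
        refine setIntegral_mono_set (mS _ (fun t ht => ⟨ht.1, ht.2.1⟩))
          (Eventually.of_forall fun t => sq_nonneg _) (LE.le.eventuallyLE ?_)
        rintro t ⟨t1, t2, -, ρ, t3, t4⟩
        refine ⟨t1, t2, ρ, Zw_sub (by simpa using hrT T' hT') t3, ?_⟩
        rw [hAlog]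
        exact t4
      have hN2 := hNb b
      have hmono : ∀ x : ℝ, c / 4 * A + c / 2 * K ≤ c * x →
          C * Real.exp (-(c * x)) * T' * N2 N b ≤
          (C * Real.exp (-(c / 4 * A))) * Real.exp (-(c / 2 * K)) * T' * N2 N b := by
        intro x hx
        rw [mul_assoc C (Real.exp (-(c / 4 * A))), ← Real.exp_add]
        have : Real.exp (-(c * x)) ≤ Real.exp (-(c / 4 * A) + -(c / 2 * K)) := by
          apply Real.exp_le_exp.2
          linarith
        gcongr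
      rcases le_total A' K with hK | hK
      · refine b1.trans (hmono _ ?_)
        nlinarith
      · refine b2.trans (hmono _ ?_)
        nlinarith
    have h8 := cakeQ hZ (r := r) k2 (C := C * Real.exp (-(c / 4 * A))) (c := c / 2)
      (by positivity) (by positivity) (hV b) (fun s => sq_nonneg _) (hNb b) mQ (nz 0 (4 * T + r))
      (fun s s1 s2 => nz_mono hZ (Zw_sub (by rw [sub_zero, abs_of_nonneg (by linarith)]; linarith)))
      h7
    refine h8.trans ?_
    have hN2 := hNb b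
    calc C * Real.exp (-(c / 4 * A)) / (c / 2) * T' * N2 N b
        ≤ C * Real.exp (-(c / 4 * A)) / (c / 2) * (2 * T) * N2 N b := by gcongr
      _ = (4 * (C / c) * Real.exp (-(c / 4 * A)) * T) * N2 N b := by
          field_simp
          ring
  have hxj : ∀ j ∈ Finset.range (⌈w / r⌉₊ + 1), |(X + (-w + r + 2 * r * j) : ℝ)| ≤ T / 2 := by
    intro j hj
    have h6 := off_bd hr0 hw0 hj
    refine (abs_add_le _ _).trans ?_
    linarith
  have h11 : ∀ t, T ≤ t → t ≤ 2 * T → cz (t + X) w α ≤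
      ∑ j ∈ Finset.range (⌈w / r⌉₊ + 1), (Q.indicator 1 (t + (X + (-w + r + 2 * r * j))) *
        (nz (t + (X + (-w + r + 2 * r * j))) r : ℝ)) := by
    intro t _ _
    refine (cz_cover hZ hr0 hw0).trans (Finset.sum_le_sum fun j _ => ?_)
    rw [add_assoc]
    exact cz_le hZ _ _ _
  have h13 := comb' hD hT0 ((measurable_one.indicator mQ).mul mn)
    (fun s => mul_nonneg (indicator_nonneg (fun _ _ => zero_le_one) s) (Nat.cast_nonneg _))
    (M := (nz 0 (4 * T + r) : ℝ))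
    (fun s s1 s2 => by
      have h6 : (nz s r : ℝ) ≤ nz 0 (4 * T + r) := by
        have := nz_mono hZ (Zw_sub (t := s) (r := r) (t' := 0) (r' := 4 * T + r)
          (by rw [sub_zero, abs_of_nonneg (by linarith)]; linarith))
        exact_mod_cast this
      have h7 : Q.indicator (1 : ℝ → ℝ) s ≤ 1 := indicator_le_self' (fun _ _ => zero_le_one) s
      have h8 : (0 : ℝ) ≤ nz s r := Nat.cast_nonneg _
      calc Q.indicator (1 : ℝ → ℝ) s * (nz s r : ℝ) ≤ 1 * (nz s r : ℝ) :=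
            mul_le_mul_of_nonneg_right h7 h8
        _ ≤ _ := by rw [one_mul]; exact h6) N (by positivity) h5 b hxj h11
  refine h13.trans ?_
  have hN2 := hNb b
  calc ((⌈w / r⌉₊ + 1 : ℕ) : ℝ) * (3 * (4 * (C / c) * Real.exp (-(c / 4 * A)) * T) * N2 N b)
      ≤ 4 * (3 * (4 * (C / c) * Real.exp (-(c / 4 * A)) * T) * N2 N b) :=
        mul_le_mul_of_nonneg_right hn (by positivity)
    _ = 48 * (C / c) * Real.exp (-(c / 4 * A)) * T * N2 N b := by ring

end Pool.Agent.Q222.UM
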