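import Pool.Agent.Q97.UM.Stm6
import Pool.Agent.Q178.UM.ZF2
import Pool.Agent.Q84.UM.DPM
import Pool.Agent.Q222.UM.ED

/-!
# Project UM2, job ERR: the mean of the error term
-/

set_option autoImplicit false

namespace Pool.Agent.Q222.UM

open Filter Topology MeasureTheory Set
open Pool.Agent.Q97.UM Pool.Agent.Q210.UM

lemma cz_fix (hZ : S_ZF2) {t r α R : ℝ} (h : |t| + r ≤ R) : cz t r α =
    ∑ ρ ∈ (hZ.1 0 R).toFinset.filter (fun ρ => α ≤ |ρ.re - 1 / 2|),
      ({t : ℝ | |ρ.im - t| ≤ r}).indicator (fun _ => (analyticOrderNatAt riemannZeta ρ : ℝ)) t := by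
  classical
  rw [cz_eq hZ, ← Finset.sum_filter]
  have e : ∀ ρ : ℂ, ({t : ℝ | |ρ.im - t| ≤ r}).indicator
      (fun _ => (analyticOrderNatAt riemannZeta ρ : ℝ)) t =
      if |ρ.im - t| ≤ r then (analyticOrderNatAt riemannZeta ρ : ℝ) else 0 := by
    intro ρ
    rw [Set.indicator_apply]
    rfl
  simp only [e]
  rw [← Finset.sum_filter]
  refine Finset.sum_congr ?_ fun _ _ => rfl
  ext ρ
  simp only [Finset.mem_filter, Set.Finite.mem_toFinset]
  constructor
  · rintro ⟨⟨h0, h1, h2, h3⟩, h4⟩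
    refine ⟨⟨⟨h0, h1, h2, ?_⟩, h4⟩, h3⟩
    calc |ρ.im - 0| = |(ρ.im - t) + t| := by congr 1; ring
      _ ≤ |ρ.im - t| + |t| := abs_add_le _ _
      _ ≤ R := by linarith
  · rintro ⟨⟨⟨h0, h1, h2, -⟩, h4⟩, h3⟩
    exact ⟨⟨h0, h1, h2, h3⟩, h4⟩

lemma cz_int (hZ : S_ZF2) (X r α : ℝ) {a b : ℝ} (hab : a ≤ b) {V : ℝ → ℝ} (hV : Continuous V)
    (hV0 : ∀ s, 0 ≤ V s) : IntervalIntegrable (fun t => cz (t + X) r α * V t) volume a b := by
  classical
  set R : ℝ := |a| + |b| + |X| + r with hR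
  set g : ℝ → ℝ := fun t => ∑ ρ ∈ (hZ.1 0 R).toFinset.filter (fun ρ => α ≤ |ρ.re - 1 / 2|),
      ({t : ℝ | |ρ.im - t| ≤ r}).indicator (fun _ => (analyticOrderNatAt riemannZeta ρ : ℝ)) (t + X)
    with hg
  have hmeas : Measurable g := by
    refine Finset.measurable_sum _ fun ρ _ => ?_
    have h1 : MeasurableSet {t : ℝ | |ρ.im - t| ≤ r} := by
      apply IsClosed.measurableSet
      exact isClosed_le (by fun_prop) continuous_const
    exact (measurable_const.indicator h1).comp (measurable_id.add_const X)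
  have h0 : ∀ s, 0 ≤ g s := fun s => Finset.sum_nonneg fun ρ _ =>
    indicator_nonneg (fun _ _ => Nat.cast_nonneg _) _
  have hM : ∀ s, a ≤ s → s ≤ b → g s ≤
      ∑ ρ ∈ (hZ.1 0 R).toFinset.filter (fun ρ => α ≤ |ρ.re - 1 / 2|),
        (analyticOrderNatAt riemannZeta ρ : ℝ) := fun s _ _ =>
    Finset.sum_le_sum fun ρ _ => indicator_le_self' (fun _ _ => Nat.cast_nonneg _) _
  have h1 := gint hmeas hab h0 hM hV hV0
  refine h1.congr fun s hs => ?_
  rw [uIoc_of_le hab] at hs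
  simp only [hg]
  rw [cz_fix hZ (R := R)]
  have h2 : |s| ≤ |a| + |b| := by
    rw [abs_le]
    have := neg_abs_le a
    have := le_abs_self b
    have := abs_nonneg a
    have := abs_nonneg b
    constructor <;> linarith [hs.1, hs.2]
  have h3 := abs_add_le s X
  rw [hR]
  linarith

/-- the bound for `Psi` in a box -/
noncomputable def PB (δ H : ℝ) (K : ℕ) (n : ℤ) (j : ℕ) : ℝ := Real.exp (3 * δ * (j + 1)) *
  ((1 + Real.exp (2 * (j + 1) / K)) * (4 / (1 + |(|(n : ℝ)| - H)|) ^ 2) +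
    (if |(n : ℝ)| ≤ H + 1 then 1 / H else 0))

lemma PB_nonneg {δ H : ℝ} (hH : 1 ≤ H) (K : ℕ) (n : ℤ) (j : ℕ) : 0 ≤ PB δ H K n j := by
  unfold PB
  have h1 : (0 : ℝ) ≤ (if |(n : ℝ)| ≤ H + 1 then 1 / H else 0) := by
    split_ifs
    · positivity
    · exact le_rfl
  positivity

lemma Psi_nonneg {δ H : ℝ} (hH : 1 ≤ H) (K : ℕ) (x y : ℝ) : 0 ≤ Psi δ H K x y := by
  unfold Psi
  have h1 : (0 : ℝ) ≤ (if |x| ≤ H then 1 / H else 0) := by
    split_ifs
    · positivity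
    · exact le_rfl
  have h2 : (0 : ℝ) ≤ (if H < |x| ∧ (1 + (|x| - H)) ^ K < Real.exp y then 1 else 0) := by
    split_ifs
    · exact zero_le_one
    · exact le_rfl
  positivity

lemma Psi_le {δ H x y : ℝ} {K : ℕ} (hδ : 0 < δ) (hH : 1 ≤ H) (hK : 2 ≤ K)
    {n : ℤ} {j : ℕ} (hX : |x - n| ≤ 1) (hj : y ≤ j + 1) : Psi δ H K x y ≤ PB δ H K n j := by
  unfold Psi PB
  have hK0 : (0 : ℝ) < K := by
    have : 0 < K := by omega
    exact_mod_cast this
  set u : ℝ := |(|x| - H)| with hu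
  set v : ℝ := |(|(n : ℝ)| - H)| with hv
  have hu0 : 0 ≤ u := abs_nonneg _
  have hv0 : 0 ≤ v := abs_nonneg _
  have hxn : |(|x| - |(n : ℝ)|)| ≤ 1 := (abs_abs_sub_abs_le_abs_sub x n).trans hX
  have hvu : v ≤ u + 1 := by
    have h1 := abs_sub_abs_le_abs_sub (|(n : ℝ)| - H) (|x| - H)
    have h2 : |(n : ℝ)| - H - (|x| - H) = -(|x| - |(n : ℝ)|) := by ring
    rw [h2, abs_neg] at h1
    linarith
  have hsq : 1 / (1 + u) ^ 2 ≤ 4 / (1 + v) ^ 2 := by
    rw [div_le_div_iff₀ (by positivity) (by positivity)]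
    have h1 : 1 + v ≤ 2 * (1 + u) := by linarith
    have h2 : (1 + v) ^ 2 ≤ (2 * (1 + u)) ^ 2 := pow_le_pow_left₀ (by linarith) h1 2
    nlinarith
  have hA : 1 / (1 + u) ^ K ≤ 4 / (1 + v) ^ 2 := by
    refine le_trans ?_ hsq
    exact one_div_le_one_div_of_le (by positivity) (pow_le_pow_right₀ (by linarith) hK)
  have hB : (if H < |x| ∧ (1 + (|x| - H)) ^ K < Real.exp y then (1 : ℝ) else 0) ≤
      Real.exp (2 * (j + 1) / K) * (4 / (1 + v) ^ 2) := by
    split_ifs with h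
    · obtain ⟨h1, h2⟩ := h
      have hux : u = |x| - H := abs_of_pos (by linarith)
      rw [← hux] at h2
      have h3 : (K : ℝ) * Real.log (1 + u) < y := by
        have h4 : Real.exp ((K : ℝ) * Real.log (1 + u)) = (1 + u) ^ K := by
          rw [Real.exp_nat_mul, Real.exp_log (by linarith)]
        rw [← h4] at h2
        exact Real.exp_lt_exp.1 h2
      have h5 : (1 + u) ^ 2 ≤ Real.exp (2 * (j + 1) / K) := by
        have h6 : (1 + u) ^ 2 = Real.exp (2 * Real.log (1 + u)) := by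
          have := Real.exp_nat_mul (Real.log (1 + u)) 2
          rw [Real.exp_log (by linarith)] at this
          rw [← this]
          norm_num
        rw [h6]
        apply Real.exp_le_exp.2
        rw [le_div_iff₀ hK0]
        nlinarith
      have h7 : 1 ≤ Real.exp (2 * (j + 1) / K) * (1 / (1 + u) ^ 2) := by
        rw [mul_one_div, le_div_iff₀ (by positivity), one_mul]
        exact h5
      exact h7.trans (mul_le_mul_of_nonneg_left hsq (Real.exp_pos _).le)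
    · positivity
  have hC : (if |x| ≤ H then 1 / H else 0) ≤ (if |(n : ℝ)| ≤ H + 1 then 1 / H else 0) := by
    by_cases h : |x| ≤ H
    · have h2 : |(n : ℝ)| ≤ H + 1 := by
        have := (abs_le.1 hxn).1
        linarith
      rw [if_pos h, if_pos h2]
    · rw [if_neg h]
      split_ifs
      · positivity
      · exact le_rfl
  have hE : Real.exp (3 * δ * y) ≤ Real.exp (3 * δ * (j + 1)) := by
    apply Real.exp_le_exp.2
    have : 0 < 3 * δ := by linarith
    nlinarith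
  have h0 : (0 : ℝ) ≤ 1 / (1 + u) ^ K +
      (if H < |x| ∧ (1 + (|x| - H)) ^ K < Real.exp y then (1 : ℝ) else 0) +
      (if |x| ≤ H then 1 / H else 0) := by
    have h1 : (0 : ℝ) ≤ (if |x| ≤ H then 1 / H else 0) := by
      split_ifs
      · positivity
      · exact le_rfl
    have h2 : (0 : ℝ) ≤ (if H < |x| ∧ (1 + (|x| - H)) ^ K < Real.exp y then (1 : ℝ) else 0) := by
      split_ifs
      · exact zero_le_one
      · exact le_rfl
    positivity
  refine mul_le_mul hE ?_ h0 (Real.exp_pos _).le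
  rw [add_mul, one_mul]
  linarith

lemma summable_sq_int : Summable (fun m : ℤ => 1 / (1 + |(m : ℝ)|) ^ 2) := by
  have h1 : Summable (fun m : ℤ => 1 / (m : ℝ) ^ 2) := Real.summable_one_div_int_pow.2 (by norm_num)
  have h2 : Summable (fun m : ℤ => if m = 0 then (1 : ℝ) else 0) := by
    refine summable_of_ne_finset_zero (s := {0}) fun m hm => ?_
    rw [if_neg]
    simpa using hm
  refine Summable.of_nonneg_of_le (fun m => by positivity) (fun m => ?_) (h1.add h2)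
  by_cases hm : m = 0
  · subst hm
    simp
  · rw [if_neg hm, add_zero]
    have hm' : (0 : ℝ) < |(m : ℝ)| := abs_pos.2 (by exact_mod_cast hm)
    refine one_div_le_one_div_of_le (by positivity) ?_
    rw [← sq_abs]
    exact pow_le_pow_left₀ hm'.le (by linarith) 2

lemma sum_shift (F : Finset ℤ) (H : ℝ) : ∑ n ∈ F, 4 / (1 + |(n : ℝ) - H|) ^ 2 ≤
    16 * ∑' m : ℤ, 1 / (1 + |(m : ℝ)|) ^ 2 := by
  have h1 : ∀ n : ℤ, 4 / (1 + |(n : ℝ) - H|) ^ 2 ≤ 16 * (1 / (1 + |((n - ⌊H⌋ : ℤ) : ℝ)|) ^ 2) := by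
    intro n
    rw [mul_one_div, div_le_div_iff₀ (by positivity) (by positivity)]
    have h2 : |((n - ⌊H⌋ : ℤ) : ℝ)| ≤ |(n : ℝ) - H| + 1 := by
      push_cast
      have h3 : (n : ℝ) - ⌊H⌋ = ((n : ℝ) - H) + (H - ⌊H⌋) := by ring
      rw [h3]
      refine (abs_add_le _ _).trans ?_
      have h4 := Int.self_sub_floor H
      have h5 : |H - ⌊H⌋| ≤ 1 := by
        rw [h4, abs_of_nonneg (Int.fract_nonneg _)]
        exact (Int.fract_lt_one _).le
      linarith
    have h3 : 0 ≤ |(n : ℝ) - H| := abs_nonneg _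
    have h4 : (1 + |((n - ⌊H⌋ : ℤ) : ℝ)|) ^ 2 ≤ (2 * (1 + |(n : ℝ) - H|)) ^ 2 :=
      pow_le_pow_left₀ (by positivity) (by linarith) 2
    nlinarith
  have h2 : Summable (fun n : ℤ => 1 / (1 + |((n - ⌊H⌋ : ℤ) : ℝ)|) ^ 2) :=
    summable_sq_int.comp_injective (sub_left_injective (b := ⌊H⌋))
  have h3 : ∑' n : ℤ, 1 / (1 + |((n - ⌊H⌋ : ℤ) : ℝ)|) ^ 2 = ∑' m : ℤ, 1 / (1 + |(m : ℝ)|) ^ 2 :=
    (Equiv.subRight ⌊H⌋).tsum_eq (fun m : ℤ => 1 / (1 + |(m : ℝ)|) ^ 2)
  calc ∑ n ∈ F, 4 / (1 + |(n : ℝ) - H|) ^ 2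
      ≤ ∑ n ∈ F, 16 * (1 / (1 + |((n - ⌊H⌋ : ℤ) : ℝ)|) ^ 2) := Finset.sum_le_sum fun n _ => h1 n
    _ = 16 * ∑ n ∈ F, 1 / (1 + |((n - ⌊H⌋ : ℤ) : ℝ)|) ^ 2 := (Finset.mul_sum _ _ _).symm
    _ ≤ 16 * ∑' n : ℤ, 1 / (1 + |((n - ⌊H⌋ : ℤ) : ℝ)|) ^ 2 :=
        mul_le_mul_of_nonneg_left (h2.sum_le_tsum F fun _ _ => by positivity) (by norm_num)
    _ = _ := by rw [h3]

lemma sum_PB {δ H : ℝ} (hH : 1 ≤ H) (K : ℕ) (j : ℕ) (M : ℤ) :
    ∑ n ∈ Finset.Icc (-M) M, PB δ H K n j ≤ Real.exp (3 * δ * (j + 1)) *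
      ((1 + Real.exp (2 * (j + 1) / K)) * (32 * ∑' m : ℤ, 1 / (1 + |(m : ℝ)|) ^ 2) + 5) := by
  unfold PB
  rw [← Finset.mul_sum, Finset.sum_add_distrib, ← Finset.mul_sum]
  have h1 : ∑ n ∈ Finset.Icc (-M) M, 4 / (1 + |(|(n : ℝ)| - H)|) ^ 2 ≤
      32 * ∑' m : ℤ, 1 / (1 + |(m : ℝ)|) ^ 2 := by
    have h2 : ∀ n : ℤ, 4 / (1 + |(|(n : ℝ)| - H)|) ^ 2 ≤
        4 / (1 + |(n : ℝ) - H|) ^ 2 + 4 / (1 + |((-n : ℤ) : ℝ) - H|) ^ 2 := by
      intro n
      rcases abs_choice (n : ℝ) with h | h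
      · rw [h]
        have : (0 : ℝ) ≤ 4 / (1 + |((-n : ℤ) : ℝ) - H|) ^ 2 := by positivity
        linarith
      · rw [h]
        push_cast
        have : (0 : ℝ) ≤ 4 / (1 + |(n : ℝ) - H|) ^ 2 := by positivity
        linarith
    have h3 := sum_shift (Finset.Icc (-M) M) H
    have h4 := sum_shift ((Finset.Icc (-M) M).image (fun n => -n)) H
    rw [Finset.sum_image (fun a _ b _ hab => neg_injective hab)] at h4
    calc ∑ n ∈ Finset.Icc (-M) M, 4 / (1 + |(|(n : ℝ)| - H)|) ^ 2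
        ≤ ∑ n ∈ Finset.Icc (-M) M,
          (4 / (1 + |(n : ℝ) - H|) ^ 2 + 4 / (1 + |((-n : ℤ) : ℝ) - H|) ^ 2) :=
          Finset.sum_le_sum fun n _ => h2 n
      _ = ∑ n ∈ Finset.Icc (-M) M, 4 / (1 + |(n : ℝ) - H|) ^ 2 +
          ∑ n ∈ Finset.Icc (-M) M, 4 / (1 + |((-n : ℤ) : ℝ) - H|) ^ 2 := Finset.sum_add_distrib
      _ ≤ _ := by linarith
  have h2 : ∑ n ∈ Finset.Icc (-M) M, (if |(n : ℝ)| ≤ H + 1 then 1 / H else 0) ≤ 5 := by
    rw [← Finset.sum_filter, Finset.sum_const, nsmul_eq_mul]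
    have h3 : (Finset.Icc (-M) M).filter (fun n : ℤ => |(n : ℝ)| ≤ H + 1) ⊆
        Finset.Icc (-⌊H + 1⌋) ⌊H + 1⌋ := by
      intro n hn
      rw [Finset.mem_filter] at hn
      obtain ⟨h4, h5⟩ := abs_le.1 hn.2
      rw [Finset.mem_Icc]
      constructor
      · rw [neg_le]
        apply Int.le_floor.2
        push_cast
        linarith
      · exact Int.le_floor.2 h5
    have h4 := Finset.card_le_card h3
    rw [Int.card_Icc] at h4
    have h5 : ((((Finset.Icc (-M) M).filter (fun n : ℤ => |(n : ℝ)| ≤ H + 1)).card : ℤ) : ℝ) ≤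
        2 * (H + 1) + 1 := by
      have h6 : (((Finset.Icc (-M) M).filter (fun n : ℤ => |(n : ℝ)| ≤ H + 1)).card : ℤ) ≤
          2 * ⌊H + 1⌋ + 1 := by
        have h7 : 0 ≤ ⌊H + 1⌋ := Int.floor_nonneg.2 (by linarith)
        omega
      have h7 : ((((Finset.Icc (-M) M).filter (fun n : ℤ => |(n : ℝ)| ≤ H + 1)).card : ℤ) : ℝ) ≤
          ((2 * ⌊H + 1⌋ + 1 : ℤ) : ℝ) := by exact_mod_cast h6
      push_cast at h7 ⊢
      have h8 := Int.floor_le (H + 1)
      linarith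
    push_cast at h5
    rw [mul_one_div, div_le_iff₀ (by linarith)]
    linarith
  have h3 : (0 : ℝ) ≤ 1 + Real.exp (2 * (j + 1) / K) := by positivity
  refine mul_le_mul_of_nonneg_left ?_ (Real.exp_pos _).le
  exact add_le_add (mul_le_mul_of_nonneg_left h1 h3) h2

/-- the zeros far away -/
lemma Psi_far {δ H x y T : ℝ} {K : ℕ} (hH : 1 ≤ H) (hδ : 0 < δ) (hδ1 : δ ≤ 1 / 100)
    (hK : 16 ≤ K) (hT : 16 ≤ T) (hTH : 4 * H ^ 2 ≤ T) (hx : Real.sqrt T < |x|) (hy : 0 ≤ y)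
    (hyT : y ≤ Real.log T / 2) : Psi δ H K x y ≤ 1 / T ^ 2 := by
  have hT0 : 0 < T := by linarith
  have hs : 4 ≤ Real.sqrt T := by
    rw [Real.le_sqrt (by norm_num) hT0.le]
    linarith
  have hs2 : Real.sqrt T ^ 2 = T := Real.sq_sqrt hT0.le
  have hsH : 2 * H ≤ Real.sqrt T := by
    rw [Real.le_sqrt (by linarith) hT0.le]
    nlinarith
  have hxH : H < |x| := by linarith
  have hb : Real.sqrt T / 2 ≤ 1 + (|x| - H) := by linarith
  have hpow : T ^ 3 ≤ (1 + (|x| - H)) ^ K := by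
    have h1 : (Real.sqrt T / 2) ^ 16 ≤ (Real.sqrt T / 2) ^ K :=
      pow_le_pow_right₀ (by linarith) hK
    have h2 : (Real.sqrt T / 2) ^ K ≤ (1 + (|x| - H)) ^ K := pow_le_pow_left₀ (by linarith) hb K
    have h3 : (Real.sqrt T / 2) ^ 16 = T ^ 8 / 65536 := by
      have : (Real.sqrt T / 2) ^ 16 = (Real.sqrt T ^ 2) ^ 8 / 65536 := by ring
      rw [this, hs2]
    have h4 : T ^ 3 ≤ T ^ 8 / 65536 := by
      rw [le_div_iff₀ (by norm_num)]
      have h5 : (65536 : ℝ) ≤ T ^ 5 := by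
        calc (65536 : ℝ) ≤ 16 ^ 5 := by norm_num
          _ ≤ T ^ 5 := pow_le_pow_left₀ (by norm_num) hT 5
      calc T ^ 3 * 65536 ≤ T ^ 3 * T ^ 5 := mul_le_mul_of_nonneg_left h5 (by positivity)
        _ = T ^ 8 := by ring
    linarith
  have hey : Real.exp y ≤ T := by
    have h1 : Real.exp y ≤ Real.exp (Real.log T) := by
      apply Real.exp_le_exp.2
      have : 0 ≤ Real.log T := Real.log_nonneg (by linarith)
      linarith
    rwa [Real.exp_log hT0] at h1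
  have hTT : T < T ^ 3 := by
    have h1 : 1 < T ^ 2 := by nlinarith
    calc T = T * 1 := (mul_one T).symm
      _ < T * T ^ 2 := mul_lt_mul_of_pos_left h1 hT0
      _ = T ^ 3 := by ring
  unfold Psi
  rw [if_neg (by
    rintro ⟨-, h⟩
    linarith), if_neg (by linarith), add_zero, add_zero, abs_of_pos (by linarith : 0 < |x| - H)]
  have h1 : Real.exp (3 * δ * y) ≤ T := by
    have h2 : Real.exp (3 * δ * y) ≤ Real.exp y := by
      apply Real.exp_le_exp.2
      nlinarith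
    linarith
  calc Real.exp (3 * δ * y) * (1 / (1 + (|x| - H)) ^ K) ≤ T * (1 / T ^ 3) :=
        mul_le_mul h1 (one_div_le_one_div_of_le (by positivity) hpow) (by positivity) hT0.le
    _ = 1 / T ^ 2 := by
        field_simp

/-- the pointwise bound -/
lemma ErrS_le (hZ : S_ZF2) {δ H T : ℝ} {K : ℕ} (hδ : 0 < δ) (hδ1 : δ ≤ 1 / 100) (hH : 1 ≤ H)
    (hK : 16 ≤ K) (hT : 16 ≤ T) (hTH : 4 * H ^ 2 ≤ T)
    (hcount : ∑ s ∈ ZT T, (mz s : ℝ) ≤ T ^ 2) (t : ℝ) :
    ErrS δ H K T t ≤ ∑ n ∈ Finset.Icc (-(⌈Real.sqrt T⌉ + 1)) (⌈Real.sqrt T⌉ + 1),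
      ∑ j ∈ Finset.range (⌈Real.log T⌉₊ + 1), PB δ H K n j *
        cz (t + n / Real.log T) (1 / Real.log T) (j / Real.log T) + 1 := by
  classical
  set L : ℝ := Real.log T with hL
  have hT0 : 0 < T := by linarith
  have hL1 : 1 ≤ L := by
    rw [hL, Real.le_log_iff_exp_le hT0]
    have := Real.exp_one_lt_d9
    linarith
  have hL0 : 0 < L := by linarith
  set M : ℤ := ⌈Real.sqrt T⌉ + 1 with hM
  set J : ℕ := ⌈L⌉₊ + 1 with hJ
  set xs : ℂ → ℝ := fun s => L * (s.im - t) with hxs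
  set ys : ℂ → ℝ := fun s => L * |s.re - 1 / 2| with hys
  have hmem : ∀ s ∈ ZT T, riemannZeta s = 0 ∧ 0 < s.re ∧ s.re < 1 := by
    intro s hs
    have h1 := (H370.mem_Zf H370.good_zeta (by linarith : (1 : ℝ) ≤ T + 1)).1 hs
    exact ⟨h1.2.2.2.2, h1.1, h1.2.1⟩
  have hys0 : ∀ s, 0 ≤ ys s := fun s => mul_nonneg hL0.le (abs_nonneg _)
  have hys1 : ∀ s ∈ ZT T, ys s ≤ L / 2 := by
    intro s hs
    obtain ⟨-, h1, h2⟩ := hmem s hs
    have h3 : |s.re - 1 / 2| ≤ 1 / 2 := by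
      rw [abs_le]
      constructor <;> linarith
    calc L * |s.re - 1 / 2| ≤ L * (1 / 2) := mul_le_mul_of_nonneg_left h3 hL0.le
      _ = L / 2 := by ring
  have hT2 : (0 : ℝ) < T ^ 2 := by positivity
  have hpt : ∀ s ∈ ZT T, (mz s : ℝ) * Psi δ H K (xs s) (ys s) ≤
      (∑ n ∈ Finset.Icc (-M) M, ∑ j ∈ Finset.range J,
        (if ⌊xs s⌋ = n ∧ ⌊ys s⌋₊ = j then PB δ H K n j * (mz s : ℝ) else 0)) +
        (mz s : ℝ) * (1 / T ^ 2) := by
    intro s hs
    have hm : (0 : ℝ) ≤ mz s := Nat.cast_nonneg _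
    have hterm0 : ∀ n : ℤ, ∀ j : ℕ, (0 : ℝ) ≤
        (if ⌊xs s⌋ = n ∧ ⌊ys s⌋₊ = j then PB δ H K n j * (mz s : ℝ) else 0) := by
      intro n j
      split_ifs
      · exact mul_nonneg (PB_nonneg hH K n j) hm
      · exact le_rfl
    by_cases hx : |xs s| ≤ Real.sqrt T
    · have hn : ⌊xs s⌋ ∈ Finset.Icc (-M) M := by
        obtain ⟨h1, h2⟩ := abs_le.1 hx
        have h3 := Int.le_ceil (Real.sqrt T)
        have h4 := Int.floor_le (xs s)
        have h5 := Int.lt_floor_add_one (xs s)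
        rw [Finset.mem_Icc]
        have h6 : ((-M : ℤ) : ℝ) ≤ (⌊xs s⌋ : ℝ) := by
          rw [hM]
          push_cast
          linarith
        have h7 : (⌊xs s⌋ : ℝ) ≤ ((M : ℤ) : ℝ) := by
          rw [hM]
          push_cast
          linarith
        exact ⟨by exact_mod_cast h6, by exact_mod_cast h7⟩
      have hj : ⌊ys s⌋₊ ∈ Finset.range J := by
        rw [Finset.mem_range, hJ, Nat.lt_succ_iff]
        have h1 := Nat.floor_le (hys0 s)
        have h2 := hys1 s hs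
        have h3 := Nat.le_ceil L
        have h4 : (⌊ys s⌋₊ : ℝ) ≤ (⌈L⌉₊ : ℝ) := by linarith
        exact_mod_cast h4
      have h1 : Psi δ H K (xs s) (ys s) ≤ PB δ H K ⌊xs s⌋ ⌊ys s⌋₊ := by
        refine Psi_le hδ hH (by omega) ?_ ?_
        · have h4 := Int.floor_le (xs s)
          have h5 := Int.lt_floor_add_one (xs s)
          rw [abs_le]
          constructor <;> linarith
        · exact (Nat.lt_floor_add_one _).le
      have h2 : PB δ H K ⌊xs s⌋ ⌊ys s⌋₊ * (mz s : ℝ) ≤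
          ∑ n ∈ Finset.Icc (-M) M, ∑ j ∈ Finset.range J,
            (if ⌊xs s⌋ = n ∧ ⌊ys s⌋₊ = j then PB δ H K n j * (mz s : ℝ) else 0) := by
        have h3 := Finset.single_le_sum (f := fun n : ℤ => ∑ j ∈ Finset.range J,
            (if ⌊xs s⌋ = n ∧ ⌊ys s⌋₊ = j then PB δ H K n j * (mz s : ℝ) else 0))
          (fun n _ => Finset.sum_nonneg fun j _ => hterm0 n j) hn
        have h4 := Finset.single_le_sum (f := fun j : ℕ =>
            (if ⌊xs s⌋ = ⌊xs s⌋ ∧ ⌊ys s⌋₊ = j then PB δ H K ⌊xs s⌋ j * (mz s : ℝ) else 0))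
          (fun j _ => hterm0 _ j) hj
        rw [if_pos ⟨rfl, rfl⟩] at h4
        exact h4.trans h3
      have h3 : (0 : ℝ) ≤ (mz s : ℝ) * (1 / T ^ 2) := by positivity
      calc (mz s : ℝ) * Psi δ H K (xs s) (ys s) ≤ (mz s : ℝ) * PB δ H K ⌊xs s⌋ ⌊ys s⌋₊ :=
            mul_le_mul_of_nonneg_left h1 hm
        _ = PB δ H K ⌊xs s⌋ ⌊ys s⌋₊ * (mz s : ℝ) := mul_comm _ _
        _ ≤ _ := by linarith
    · push Not at hx
      have h1 := Psi_far hH hδ hδ1 hK hT hTH hx (hys0 s) (hys1 s hs)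
      have h2 : (0 : ℝ) ≤ ∑ n ∈ Finset.Icc (-M) M, ∑ j ∈ Finset.range J,
            (if ⌊xs s⌋ = n ∧ ⌊ys s⌋₊ = j then PB δ H K n j * (mz s : ℝ) else 0) :=
        Finset.sum_nonneg fun n _ => Finset.sum_nonneg fun j _ => hterm0 n j
      have h3 := mul_le_mul_of_nonneg_left h1 hm
      linarith
  have h1 : ErrS δ H K T t ≤ ∑ s ∈ ZT T, ((∑ n ∈ Finset.Icc (-M) M, ∑ j ∈ Finset.range J,
        (if ⌊xs s⌋ = n ∧ ⌊ys s⌋₊ = j then PB δ H K n j * (mz s : ℝ) else 0)) +
        (mz s : ℝ) * (1 / T ^ 2)) := Finset.sum_le_sum hpt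
  refine h1.trans ?_
  rw [Finset.sum_add_distrib, ← Finset.sum_mul]
  have h2 : (∑ s ∈ ZT T, (mz s : ℝ)) * (1 / T ^ 2) ≤ 1 := by
    rw [mul_one_div, div_le_one hT2]
    exact hcount
  refine add_le_add ?_ h2
  rw [Finset.sum_comm]
  refine Finset.sum_le_sum fun n _ => ?_
  rw [Finset.sum_comm]
  refine Finset.sum_le_sum fun j _ => ?_
  rw [← Finset.sum_filter, ← Finset.mul_sum]
  refine mul_le_mul_of_nonneg_left ?_ (PB_nonneg hH K n j)
  rw [cz_eq hZ, ← Finset.sum_filter]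
  refine Finset.sum_le_sum_of_subset_of_nonneg (fun s hs => ?_) fun _ _ _ => Nat.cast_nonneg _
  rw [Finset.mem_filter] at hs ⊢
  obtain ⟨hsZ, hsn, hsj⟩ := hs
  obtain ⟨m1, m2, m3⟩ := hmem s hsZ
  rw [Set.Finite.mem_toFinset]
  refine ⟨⟨m1, m2, m3, ?_⟩, ?_⟩
  · have h4 := Int.floor_le (xs s)
    have h5 := Int.lt_floor_add_one (xs s)
    rw [hsn] at h4 h5
    have h6 : s.im - (t + n / L) = (xs s - n) / L := by
      rw [hxs]
      field_simp
      ring
    rw [h6, abs_div, abs_of_pos hL0]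
    refine div_le_div_of_nonneg_right ?_ hL0.le
    rw [abs_le]
    constructor <;> linarith
  · have h4 := Nat.floor_le (hys0 s)
    rw [hsj] at h4
    rw [div_le_iff₀ hL0, mul_comm]
    exact h4

theorem t_ERR : J_ERR := by
  intro hMVL θ c C₂ hθ0 hθ1 hc hc1 hC₂ hE
  have hZ : S_ZF2 := Pool.Agent.Q178.UM.ZF2.t_ZF2
  have hD : S_DPM := Pool.Agent.Q84.UM.t_DPM
  set Z₀ : ℝ := ∑' m : ℤ, 1 / (1 + |(m : ℝ)|) ^ 2 with hZ₀
  have hZ₀0 : 0 ≤ Z₀ := tsum_nonneg fun m => by positivity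
  obtain ⟨Cn, hCn, hcr⟩ := H370.NN_crude H370.good_zeta
  refine ⟨⌈8 / c⌉₊ + 16, fun K hK δ hδ hδc => ?_⟩
  have hK16 : 16 ≤ K := by omega
  have hKc : 8 / c ≤ K := by
    have h1 := Nat.le_ceil (8 / c)
    have h2 : ((⌈8 / c⌉₊ : ℕ) : ℝ) ≤ K := by
      have : ⌈8 / c⌉₊ ≤ K := by omega
      exact_mod_cast this
    linarith
  have hK0 : (0 : ℝ) < K := by
    have : 0 < K := by omega
    exact_mod_cast this
  have hδ1 : δ ≤ 1 / 100 := by linarith
  set D : ℝ := (64 * Z₀ + 5) * (Real.exp c * (2 / c)) with hDdef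
  have hD0 : 0 ≤ D := by positivity
  refine ⟨C₂ * D + 2, by positivity, fun H hH => ?_⟩
  unfold EDB at hE
  have e1 : ∀ᶠ T : ℝ in atTop, Cn * (T * Real.log T) ≤ T ^ 2 := by
    have h1 := Real.isLittleO_log_id_atTop.bound (by positivity : (0 : ℝ) < 1 / (Cn + 1))
    filter_upwards [h1, eventually_ge_atTop (1 : ℝ)] with T h2 h3
    have h4 : 0 ≤ Real.log T := Real.log_nonneg h3
    simp only [id, Real.norm_eq_abs] at h2
    rw [abs_of_nonneg h4, abs_of_nonneg (by linarith : 0 ≤ T)] at h2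
    have h5 : (Cn + 1) * Real.log T ≤ T := by
      calc (Cn + 1) * Real.log T ≤ (Cn + 1) * (1 / (Cn + 1) * T) :=
            mul_le_mul_of_nonneg_left h2 (by linarith)
        _ = T := by field_simp
    nlinarith
  have e2 : ∀ᶠ T : ℝ in atTop, 4 * Real.log T ≤ T := by
    have h1 := Real.isLittleO_log_id_atTop.bound (by norm_num : (0 : ℝ) < 1 / 4)
    filter_upwards [h1, eventually_ge_atTop (1 : ℝ)] with T h2 h3
    simp only [id, Real.norm_eq_abs] at h2
    rw [abs_of_nonneg (Real.log_nonneg h3), abs_of_nonneg (by linarith : 0 ≤ T)] at h2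
    linarith
  filter_upwards [hE, e1, e2, eventually_ge_atTop (4 * H ^ 2), eventually_ge_atTop (1024 : ℝ)]
    with T hE1 hT1 hT2 hTH hT N hN b
  have hT0 : 0 < T := by linarith
  set L : ℝ := Real.log T with hL
  have hL1 : 1 ≤ L := by
    rw [hL, Real.le_log_iff_exp_le hT0]
    have := Real.exp_one_lt_d9
    linarith
  have hL0 : 0 < L := by linarith
  have hV := V_cont hD N b
  have hV0 : ∀ s : ℝ, 0 ≤ ‖dp N b s‖ ^ 2 := fun s => sq_nonneg _
  have hNb := Pool.Agent.Q210.UM.N2_nonneg N b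
  have hcount : ∑ s ∈ ZT T, (mz s : ℝ) ≤ T ^ 2 := by
    have h1 := hcr T (by linarith) (T + 1) (2 * T - 1) (by linarith) (by linarith)
    rw [H370.NN_eq H370.good_zeta (by linarith : (1 : ℝ) ≤ T + 1)] at h1
    push_cast at h1
    exact h1.trans hT1
  set M : ℤ := ⌈Real.sqrt T⌉ + 1 with hM
  set J : ℕ := ⌈L⌉₊ + 1 with hJ
  set G : ℝ → ℝ := fun t => ∑ n ∈ Finset.Icc (-M) M, ∑ j ∈ Finset.range J, PB δ H K n j *
        cz (t + n / L) (1 / L) (j / L) with hG
  have hpt : ∀ t, ErrS δ H K T t ≤ G t + 1 := fun t =>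
    ErrS_le hZ hδ hδ1 hH hK16 (by linarith) hTH hcount t
  have hG0 : ∀ t, 0 ≤ G t := fun t => Finset.sum_nonneg fun n _ => Finset.sum_nonneg fun j _ =>
    mul_nonneg (PB_nonneg hH K n j) (cz_nonneg hZ _ _ _)
  have hMT : ∀ n ∈ Finset.Icc (-M) M, |((n : ℝ) / L)| ≤ T / 8 := by
    intro n hn
    rw [Finset.mem_Icc] at hn
    have h1 : (M : ℝ) ≤ T / 8 := by
      rw [hM]
      push_cast
      have h2 := Int.ceil_lt_add_one (Real.sqrt T)
      have h3 : Real.sqrt T ≤ T / 32 := by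
        rw [Real.sqrt_le_left (by positivity)]
        nlinarith
      linarith
    have h2 : |(n : ℝ)| ≤ M := by
      rw [abs_le]
      have h3 : ((-M : ℤ) : ℝ) ≤ n := by exact_mod_cast hn.1
      have h4 : (n : ℝ) ≤ M := by exact_mod_cast hn.2
      push_cast at h3
      exact ⟨h3, h4⟩
    rw [abs_div, abs_of_pos hL0, div_le_iff₀ hL0]
    nlinarith
  have hci : ∀ (n : ℤ) (j : ℕ), IntervalIntegrable
      (fun t => cz (t + n / L) (1 / L) (j / L) * ‖dp N b t‖ ^ 2) volume T (2 * T) := fun n j =>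
    cz_int hZ _ _ _ (by linarith) hV hV0
  have hci2 : ∀ (n : ℤ) (j : ℕ), IntervalIntegrable
      (fun t => PB δ H K n j * (cz (t + n / L) (1 / L) (j / L) * ‖dp N b t‖ ^ 2)) volume T (2 * T) :=
    fun n j => (hci n j).const_mul _
  have hci3 : ∀ n : ℤ, IntervalIntegrable
      (fun t => ∑ j ∈ Finset.range J, PB δ H K n j *
        (cz (t + n / L) (1 / L) (j / L) * ‖dp N b t‖ ^ 2)) volume T (2 * T) := by
    intro n
    have := IntervalIntegrable.sum (Finset.range J) (fun j _ => hci2 n j)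
    refine this.congr fun s _ => ?_
    simp [Finset.sum_apply]
  have hci4 : IntervalIntegrable
      (fun t => ∑ n ∈ Finset.Icc (-M) M, ∑ j ∈ Finset.range J, PB δ H K n j *
        (cz (t + n / L) (1 / L) (j / L) * ‖dp N b t‖ ^ 2)) volume T (2 * T) := by
    have := IntervalIntegrable.sum (Finset.Icc (-M) M) (fun n _ => hci3 n)
    refine this.congr fun s _ => ?_
    simp [Finset.sum_apply]
  have eG : ∀ t, G t * ‖dp N b t‖ ^ 2 = ∑ n ∈ Finset.Icc (-M) M, ∑ j ∈ Finset.range J,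
      PB δ H K n j * (cz (t + n / L) (1 / L) (j / L) * ‖dp N b t‖ ^ 2) := by
    intro t
    simp only [hG]
    rw [Finset.sum_mul]
    refine Finset.sum_congr rfl fun n _ => ?_
    rw [Finset.sum_mul]
    exact Finset.sum_congr rfl fun j _ => by ring
  have hVi : IntervalIntegrable (fun t => ‖dp N b t‖ ^ 2) volume T (2 * T) :=
    hV.intervalIntegrable _ _
  have hGi : IntervalIntegrable (fun t => (G t + 1) * ‖dp N b t‖ ^ 2) volume T (2 * T) := by
    have := hci4.add hVi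
    refine this.congr fun s _ => ?_
    rw [add_mul, one_mul, eG]
  -- the integral of the bound
  have hGint : ∫ t in T..(2 * T), (G t + 1) * ‖dp N b t‖ ^ 2 ≤
      (C₂ * D + 2) * T * N2 N b := by
    have h1 : ∫ t in T..(2 * T), (G t + 1) * ‖dp N b t‖ ^ 2 =
        (∑ n ∈ Finset.Icc (-M) M, ∑ j ∈ Finset.range J, PB δ H K n j *
          ∫ t in T..(2 * T), cz (t + n / L) (1 / L) (j / L) * ‖dp N b t‖ ^ 2) +
        ∫ t in T..(2 * T), ‖dp N b t‖ ^ 2 := by
      have h2 : ∀ t, (G t + 1) * ‖dp N b t‖ ^ 2 = (∑ n ∈ Finset.Icc (-M) M,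
          ∑ j ∈ Finset.range J, PB δ H K n j *
            (cz (t + n / L) (1 / L) (j / L) * ‖dp N b t‖ ^ 2)) + ‖dp N b t‖ ^ 2 := by
        intro t
        rw [add_mul, one_mul, eG]
      simp_rw [h2]
      rw [intervalIntegral.integral_add hci4 hVi]
      congr 1
      rw [intervalIntegral.integral_finsetSum (fun n _ => hci3 n)]
      refine Finset.sum_congr rfl fun n _ => ?_
      rw [intervalIntegral.integral_finsetSum (fun j _ => hci2 n j)]
      refine Finset.sum_congr rfl fun j _ => ?_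
      rw [intervalIntegral.integral_const_mul]
    have h2 : ∫ t in T..(2 * T), ‖dp N b t‖ ^ 2 ≤ 2 * T * N2 N b := by
      refine (hMVL T (by linarith) N ?_ b).2
      refine hN.trans ?_
      exact Real.rpow_le_rpow_of_exponent_le (by linarith) hθ1
    have h3 : ∀ n ∈ Finset.Icc (-M) M, ∀ j ∈ Finset.range J, PB δ H K n j *
        (∫ t in T..(2 * T), cz (t + n / L) (1 / L) (j / L) * ‖dp N b t‖ ^ 2) ≤
        PB δ H K n j * (C₂ * Real.exp (-(c * j)) * T * N2 N b) := by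
      intro n hn j _
      refine mul_le_mul_of_nonneg_left ?_ (PB_nonneg hH K n j)
      exact hE1 N hN b (n / L) j (hMT n hn) (Nat.cast_nonneg j)
    have h4 : ∑ n ∈ Finset.Icc (-M) M, ∑ j ∈ Finset.range J,
        PB δ H K n j * (C₂ * Real.exp (-(c * j)) * T * N2 N b) =
        C₂ * (∑ j ∈ Finset.range J, Real.exp (-(c * j)) * ∑ n ∈ Finset.Icc (-M) M, PB δ H K n j) *
          T * N2 N b := by
      rw [Finset.sum_comm, Finset.mul_sum, Finset.sum_mul, Finset.sum_mul]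
      refine Finset.sum_congr rfl fun j _ => ?_
      rw [← Finset.sum_mul]
      ring
    have h5 : ∀ j ∈ Finset.range J, Real.exp (-(c * j)) * ∑ n ∈ Finset.Icc (-M) M, PB δ H K n j ≤
        (64 * Z₀ + 5) * Real.exp (c / 2) * Real.exp (-(c / 2)) ^ j := by
      intro j _
      have h6 := sum_PB (δ := δ) hH K j M
      have h7 : Real.exp (3 * δ * (j + 1)) *
          ((1 + Real.exp (2 * (j + 1) / K)) * (32 * Z₀) + 5) ≤
          (64 * Z₀ + 5) * Real.exp (c / 2 * (j + 1)) := by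
        have hj0 : (0 : ℝ) ≤ (j : ℝ) + 1 := by positivity
        have h8 : 2 * ((j : ℝ) + 1) / K ≤ c / 4 * (j + 1) := by
          rw [div_le_iff₀ hK0]
          have h9 : 8 ≤ K * c := by
            rw [div_le_iff₀ hc] at hKc
            exact hKc
          nlinarith
        have h9 : 1 + Real.exp (2 * ((j : ℝ) + 1) / K) ≤ 2 * Real.exp (c / 4 * (j + 1)) := by
          have h10 : Real.exp (2 * ((j : ℝ) + 1) / K) ≤ Real.exp (c / 4 * (j + 1)) :=
            Real.exp_le_exp.2 h8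
          have h11 : 1 ≤ Real.exp (c / 4 * ((j : ℝ) + 1)) := Real.one_le_exp (by positivity)
          linarith
        have h10 : 1 ≤ Real.exp (c / 4 * ((j : ℝ) + 1)) := Real.one_le_exp (by positivity)
        have h11 : (1 + Real.exp (2 * ((j : ℝ) + 1) / K)) * (32 * Z₀) + 5 ≤
            (64 * Z₀ + 5) * Real.exp (c / 4 * (j + 1)) := by
          have := mul_le_mul_of_nonneg_right h9 (by positivity : (0 : ℝ) ≤ 32 * Z₀)
          nlinarith
        have h12 : Real.exp (3 * δ * ((j : ℝ) + 1)) ≤ Real.exp (c / 4 * (j + 1)) := by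
          apply Real.exp_le_exp.2
          nlinarith
        calc Real.exp (3 * δ * (j + 1)) * ((1 + Real.exp (2 * (j + 1) / K)) * (32 * Z₀) + 5)
            ≤ Real.exp (c / 4 * (j + 1)) * ((64 * Z₀ + 5) * Real.exp (c / 4 * (j + 1))) :=
              mul_le_mul h12 h11 (by positivity) (Real.exp_pos _).le
          _ = (64 * Z₀ + 5) * Real.exp (c / 2 * (j + 1)) := by
              have : c / 2 * ((j : ℝ) + 1) = c / 4 * (j + 1) + c / 4 * (j + 1) := by ring
              rw [this, Real.exp_add]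
              ring
      calc Real.exp (-(c * j)) * ∑ n ∈ Finset.Icc (-M) M, PB δ H K n j
          ≤ Real.exp (-(c * j)) * ((64 * Z₀ + 5) * Real.exp (c / 2 * (j + 1))) :=
            mul_le_mul_of_nonneg_left (h6.trans h7) (Real.exp_pos _).le
        _ = (64 * Z₀ + 5) * Real.exp (c / 2) * Real.exp (-(c / 2)) ^ j := by
            rw [← Real.exp_nat_mul]
            have : Real.exp (-(c * j)) * ((64 * Z₀ + 5) * Real.exp (c / 2 * (j + 1))) =
                (64 * Z₀ + 5) * (Real.exp (-(c * j)) * Real.exp (c / 2 * (j + 1))) := by ring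
            rw [this, ← Real.exp_add, mul_assoc (64 * Z₀ + 5), ← Real.exp_add]
            congr 2
            ring
    have h6 : ∑ j ∈ Finset.range J, Real.exp (-(c * j)) * ∑ n ∈ Finset.Icc (-M) M, PB δ H K n j ≤
        D := by
      refine (Finset.sum_le_sum h5).trans ?_
      rw [← Finset.mul_sum]
      have h7 : Real.exp (-(c / 2)) < 1 := by
        rw [Real.exp_lt_one_iff]
        linarith
      have h8 : 0 < Real.exp (-(c / 2)) := Real.exp_pos _
      have h9 : ∑ j ∈ Finset.range J, Real.exp (-(c / 2)) ^ j ≤ (1 - Real.exp (-(c / 2)))⁻¹ := by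
        rw [← tsum_geometric_of_lt_one h8.le h7]
        exact (summable_geometric_of_lt_one h8.le h7).sum_le_tsum _ (fun i _ => by positivity)
      have h10 : (1 - Real.exp (-(c / 2)))⁻¹ ≤ Real.exp (c / 2) * (2 / c) := by
        rw [inv_eq_one_div, div_le_iff₀ (by linarith)]
        have h11 : c / 2 + 1 ≤ Real.exp (c / 2) := Real.add_one_le_exp (c / 2)
        have h12 : Real.exp (-(c / 2)) * Real.exp (c / 2) = 1 := by
          rw [← Real.exp_add]
          simp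
        have h13 : Real.exp (c / 2) * (2 / c) * (1 - Real.exp (-(c / 2))) =
            (2 / c) * (Real.exp (c / 2) - Real.exp (-(c / 2)) * Real.exp (c / 2)) := by ring
        rw [h13, h12, div_mul_eq_mul_div, le_div_iff₀ hc]
        linarith
      have h11 : Real.exp c = Real.exp (c / 2) * Real.exp (c / 2) := by
        rw [← Real.exp_add]
        congr 1
        ring
      calc (64 * Z₀ + 5) * Real.exp (c / 2) * ∑ j ∈ Finset.range J, Real.exp (-(c / 2)) ^ j
          ≤ (64 * Z₀ + 5) * Real.exp (c / 2) * (Real.exp (c / 2) * (2 / c)) :=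
            mul_le_mul_of_nonneg_left (h9.trans h10) (by positivity)
        _ = D := by
            rw [hDdef, h11]
            ring
    rw [h1]
    have h7 : ∑ n ∈ Finset.Icc (-M) M, ∑ j ∈ Finset.range J, PB δ H K n j *
        (∫ t in T..(2 * T), cz (t + n / L) (1 / L) (j / L) * ‖dp N b t‖ ^ 2) ≤
        C₂ * D * T * N2 N b := by
      refine (Finset.sum_le_sum fun n hn => Finset.sum_le_sum fun j hj => h3 n hn j hj).trans ?_
      rw [h4]
      have h8 := mul_le_mul_of_nonneg_left h6 hC₂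
      exact mul_le_mul_of_nonneg_right (mul_le_mul_of_nonneg_right h8 hT0.le) hNb
    have h8 : (C₂ * D + 2) * T * N2 N b = C₂ * D * T * N2 N b + 2 * T * N2 N b := by ring
    rw [h8]
    exact add_le_add h7 h2
  by_cases hi : IntervalIntegrable (fun t => ErrS δ H K T t * ‖dp N b t‖ ^ 2) volume
      (T + 2 * L) (2 * T - 2 * L)
  swap
  · rw [intervalIntegral.integral_undef hi]
    positivity
  have hGi' : IntervalIntegrable (fun t => (G t + 1) * ‖dp N b t‖ ^ 2) volume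
      (T + 2 * L) (2 * T - 2 * L) := by
    refine hGi.mono_set ?_
    rw [uIcc_of_le (by linarith), uIcc_of_le (by linarith)]
    exact Icc_subset_Icc (by linarith) (by linarith)
  calc ∫ t in (T + 2 * L)..(2 * T - 2 * L), ErrS δ H K T t * ‖dp N b t‖ ^ 2
      ≤ ∫ t in (T + 2 * L)..(2 * T - 2 * L), (G t + 1) * ‖dp N b t‖ ^ 2 :=
        intervalIntegral.integral_mono_on (by linarith) hi hGi' fun t _ =>
          mul_le_mul_of_nonneg_right (hpt t) (hV0 t)
    _ ≤ ∫ t in T..(2 * T), (G t + 1) * ‖dp N b t‖ ^ 2 := by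
        refine intervalIntegral.integral_mono_interval (by linarith) (by linarith) (by linarith)
          ?_ hGi
        exact Eventually.of_forall fun t => mul_nonneg (by linarith [hG0 t]) (hV0 t)
    _ ≤ _ := hGint

end Pool.Agent.Q222.UM
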