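import Pool.Agent.Q97.UM.Stm6

/-!
# Project UM2, job GRM: Gram representation of the kernel of a window
-/

set_option autoImplicit false

open Complex Filter Topology MeasureTheory
open scoped ComplexConjugate

namespace Pool.Agent.Q222.UM

open Pool.Agent.Q97.UM

/-- the measure -/
noncomputable def mu1 : Measure ℝ := volume.restrict (Set.Ioc (-1 / 2 : ℝ) (1 / 2))

/-- the vectors -/
noncomputable def kg (g : ℝ → ℝ) (Λ : ℝ) (z : ℂ) (x : ℝ) : ℂ :=
  (Real.sqrt (g x) : ℂ) * cexp (I * z * (Λ * x))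

lemma kg_cont {g : ℝ → ℝ} (hg : H295SI.Win g) (Λ : ℝ) (z : ℂ) : Continuous (kg g Λ z) := by
  unfold kg
  have := hg.cont
  fun_prop

lemma kg_memLp {g : ℝ → ℝ} (hg : H295SI.Win g) (Λ : ℝ) (z : ℂ) : MemLp (kg g Λ z) 2 mu1 := by
  rw [memLp_two_iff_integrable_sq_norm (kg_cont hg Λ z).aestronglyMeasurable]
  have hc : Continuous (fun x : ℝ => ‖kg g Λ z x‖ ^ 2) := by
    have := kg_cont hg Λ z
    fun_prop
  exact hc.integrableOn_Ioc

lemma kg_inner {g : ℝ → ℝ} (hg : H295SI.Win g) (Λ : ℝ) (z w : ℂ) :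
    ∫ x, conj (kg g Λ z x) * kg g Λ w x ∂mu1 = H295SI.kapG g (Λ * (w - conj z)) := by
  unfold H295SI.kapG mu1
  rw [intervalIntegral.integral_of_le (by norm_num)]
  apply setIntegral_congr_fun measurableSet_Ioc
  intro x hx
  simp only [kg, map_mul, Complex.conj_ofReal, ← Complex.exp_conj, Complex.conj_I]
  have e : cexp (-I * conj z * (Λ * x)) * cexp (I * w * (Λ * x)) =
      cexp (I * (Λ * (w - conj z)) * x) := by
    rw [← Complex.exp_add]
    congr 1
    ring
  have h1 : (Real.sqrt (g x) : ℂ) * (Real.sqrt (g x) : ℂ) = (g x : ℂ) := by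
    rw [← Complex.ofReal_mul, Real.mul_self_sqrt (hg.nonneg x hx.1.le hx.2)]
  rw [← h1, ← e]
  ring

theorem t_GRM : S_GRM := by
  intro g hg Λ
  refine ⟨Lp ℂ 2 mu1, inferInstance, inferInstance, fun z => (kg_memLp hg Λ z).toLp _,
    fun z w => ?_⟩
  rw [L2.inner_def, ← kg_inner hg]
  apply integral_congr_ae
  filter_upwards [(kg_memLp hg Λ z).coeFn_toLp, (kg_memLp hg Λ w).coeFn_toLp] with p h1 h2
  rw [h1, h2, RCLike.inner_apply, mul_comm]

end Pool.Agent.Q222.UM
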