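import Pool.Agent.Q97.UM.Stm6
import Pool.Agent.Erdos456.Mertens

/-!
# Project UM2, job MER: Mertens' theorem with a Lipschitz weight
-/

set_option autoImplicit false

open Filter Topology MeasureTheory

namespace Pool.Agent.Q222.UM

open Pool.Agent.Q97.UM

theorem t_MER : S_MER := by
  obtain ⟨E₀, hE₀⟩ := Pool.Agent.Erdos456.Mert.mertens_log
  have hE0 : 0 ≤ E₀ := le_trans (abs_nonneg _) (hE₀ 1 le_rfl)
  refine ⟨1 + E₀, by linarith, ?_⟩
  intro g D B₁ x₀ x₁ M hD hB hx hM hlip hbd hsupp
  have hcont : Continuous g := by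
    have : LipschitzWith ⟨D, hD⟩ g := LipschitzWith.of_dist_le_mul fun x y => by
      rw [Real.dist_eq, Real.dist_eq]
      exact hlip x y
    exact this.continuous
  -- the values at the ends
  have hg0 : g x₀ = 0 := by
    by_contra h
    have h1 : 0 < |g x₀| := abs_pos.2 h
    have h2 := hlip x₀ (x₀ - |g x₀| / (2 * (D + 1)))
    have h3 : 0 < |g x₀| / (2 * (D + 1)) := by positivity
    rw [hsupp (x₀ - |g x₀| / (2 * (D + 1))) (Or.inl (by linarith)), sub_zero, sub_sub_cancel,
      abs_of_pos h3] at h2
    have h4 : D * (|g x₀| / (2 * (D + 1))) ≤ |g x₀| / 2 := by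
      rw [mul_div_assoc', div_le_div_iff₀ (by positivity) (by positivity)]
      nlinarith
    linarith
  have hg1 : g x₁ = 0 := by
    by_contra h
    have h1 : 0 < |g x₁| := abs_pos.2 h
    have h2 := hlip x₁ (x₁ + |g x₁| / (2 * (D + 1)))
    have h3 : 0 < |g x₁| / (2 * (D + 1)) := by positivity
    rw [hsupp (x₁ + |g x₁| / (2 * (D + 1))) (Or.inr (by linarith)), sub_zero, sub_add_cancel_left,
      abs_neg, abs_of_pos h3] at h2
    have h4 : D * (|g x₁| / (2 * (D + 1))) ≤ |g x₁| / 2 := by
      rw [mul_div_assoc', div_le_div_iff₀ (by positivity) (by positivity)]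
      nlinarith
    linarith
  -- the clamp
  set cl : ℝ → ℝ := fun x => max x₀ (min x₁ x) with hcl
  have hclm : Monotone cl := fun a b hab => max_le_max le_rfl (min_le_min le_rfl hab)
  have hgcl : ∀ x, g x = g (cl x) := by
    intro x
    rcases lt_or_ge x x₀ with h | h
    · have h1 : cl x = x₀ := by
        rw [hcl]
        simp only
        rw [min_eq_right (by linarith), max_eq_left h.le]
      rw [h1, hg0]
      exact hsupp x (Or.inl h)
    · rcases lt_or_ge x₁ x with h' | h'
      · have h1 : cl x = x₁ := by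
          rw [hcl]
          simp only
          rw [min_eq_left h'.le, max_eq_right hx]
        rw [h1, hg1]
        exact hsupp x (Or.inr h')
      · have h1 : cl x = x := by
          rw [hcl]
          simp only
          rw [min_eq_right h', max_eq_right h]
        rw [h1]
  have hclb : ∀ x, x₀ ≤ cl x ∧ cl x ≤ x₁ := fun x =>
    ⟨le_max_left _ _, max_le hx (min_le_left _ _)⟩
  have hvar : ∀ u v, u ≤ v → |g v - g u| ≤ D * cl v - D * cl u := by
    intro u v huv
    rw [hgcl v, hgcl u]
    refine (hlip _ _).trans (le_of_eq ?_)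
    rw [abs_of_nonneg (sub_nonneg.2 (hclm huv)), mul_sub]
  have hint : ∀ u v, u ≤ v → |(v - u) * g v - ∫ x in u..v, g x| ≤
      (D * cl v - D * cl u) * (v - u) := by
    intro u v huv
    have h1 : (v - u) * g v - ∫ x in u..v, g x = ∫ x in u..v, (g v - g x) := by
      rw [intervalIntegral.integral_sub (continuous_const.intervalIntegrable _ _)
        (hcont.intervalIntegrable _ _), intervalIntegral.integral_const, smul_eq_mul]
    rw [h1]
    have h2 := intervalIntegral.norm_integral_le_of_norm_le_const (a := u) (b := v)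
      (f := fun x => g v - g x) (C := D * cl v - D * cl u) (fun x hx' => by
        rw [Set.uIoc_of_le huv] at hx'
        rw [Real.norm_eq_abs]
        refine (hvar x v hx'.2).trans ?_
        have := mul_le_mul_of_nonneg_left (hclm hx'.1.le) hD
        linarith)
    rw [Real.norm_eq_abs, abs_of_nonneg (sub_nonneg.2 huv)] at h2
    exact h2
  set A : ℕ → ℝ := fun n => ∑ p ∈ (Finset.Icc 1 n).filter Nat.Prime, Real.log p / p with hA
  set S : ℕ → ℝ := fun n => ∑ p ∈ (Finset.Icc 1 n).filter Nat.Prime,
    Real.log p / p * g (Real.log p) with hS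
  have key : ∀ n : ℕ, 1 ≤ n → |S n - (∫ x in (0 : ℝ)..Real.log n, g x) -
      (A n - Real.log n) * g (Real.log n)| ≤
      (1 + E₀) * (D * cl (Real.log n) - D * cl 0) := by
    intro n hn
    induction n, hn using Nat.le_induction with
    | base =>
      have h1 : (Finset.Icc 1 1).filter Nat.Prime = ∅ := by
        ext p
        simp only [Finset.mem_filter, Finset.mem_Icc, Finset.notMem_empty, iff_false, not_and]
        rintro ⟨h1, h2⟩ h3
        have := h3.two_le
        omega
      have h2 : S 1 = 0 := by
        rw [hS]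
        simp only
        rw [h1, Finset.sum_empty]
      have h3 : A 1 = 0 := by
        rw [hA]
        simp only
        rw [h1, Finset.sum_empty]
      rw [h2, h3]
      simp
    | succ n hn ih =>
      have hn0 : (0 : ℝ) < n := by exact_mod_cast hn
      have hle : Real.log n ≤ Real.log ((n + 1 : ℕ) : ℝ) := by
        apply Real.log_le_log hn0
        push_cast
        linarith
      have hle1 : Real.log ((n + 1 : ℕ) : ℝ) - Real.log n ≤ 1 := by
        rw [← Real.log_div (by positivity) hn0.ne']
        have h1 : ((n + 1 : ℕ) : ℝ) / n ≤ Real.exp 1 := by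
          rw [div_le_iff₀ hn0]
          push_cast
          have h2 : (2 : ℝ) ≤ Real.exp 1 := by
            have := Real.add_one_le_exp (1 : ℝ)
            linarith
          have h3 : (1 : ℝ) ≤ n := by exact_mod_cast hn
          nlinarith
        calc Real.log (((n + 1 : ℕ) : ℝ) / n) ≤ Real.log (Real.exp 1) :=
              Real.log_le_log (by positivity) h1
          _ = 1 := Real.log_exp 1
      have hIcc : Finset.Icc 1 (n + 1) = insert (n + 1) (Finset.Icc 1 n) := by
        ext k
        simp only [Finset.mem_Icc, Finset.mem_insert]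
        omega
      have hstep : S (n + 1) - S n = (A (n + 1) - A n) * g (Real.log ((n + 1 : ℕ) : ℝ)) := by
        rw [hS, hA]
        simp only
        rw [hIcc, Finset.filter_insert]
        split_ifs with hp
        · rw [Finset.sum_insert (by simp), Finset.sum_insert (by simp)]
          ring
        · ring
      have hi : (∫ x in (0 : ℝ)..Real.log ((n + 1 : ℕ) : ℝ), g x) =
          (∫ x in (0 : ℝ)..Real.log n, g x) +
            ∫ x in (Real.log n)..(Real.log ((n + 1 : ℕ) : ℝ)), g x :=
        (intervalIntegral.integral_add_adjacent_intervals (hcont.intervalIntegrable _ _)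
          (hcont.intervalIntegrable _ _)).symm
      have h1 := hint _ _ hle
      have h2 := hvar _ _ hle
      have h3 : |(A n - Real.log n) * (g (Real.log ((n + 1 : ℕ) : ℝ)) - g (Real.log n))| ≤
          E₀ * (D * cl (Real.log ((n + 1 : ℕ) : ℝ)) - D * cl (Real.log n)) := by
        rw [abs_mul]
        exact mul_le_mul (hE₀ n hn) h2 (abs_nonneg _) hE0
      have h4 : (D * cl (Real.log ((n + 1 : ℕ) : ℝ)) - D * cl (Real.log n)) *
          (Real.log ((n + 1 : ℕ) : ℝ) - Real.log n) ≤
          (D * cl (Real.log ((n + 1 : ℕ) : ℝ)) - D * cl (Real.log n)) * 1 :=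
        mul_le_mul_of_nonneg_left hle1 (le_trans (abs_nonneg _) h2)
      have h5 : S (n + 1) - (∫ x in (0 : ℝ)..Real.log ((n + 1 : ℕ) : ℝ), g x) -
          (A (n + 1) - Real.log ((n + 1 : ℕ) : ℝ)) * g (Real.log ((n + 1 : ℕ) : ℝ)) =
          (S n - (∫ x in (0 : ℝ)..Real.log n, g x) - (A n - Real.log n) * g (Real.log n)) +
          ((Real.log ((n + 1 : ℕ) : ℝ) - Real.log n) * g (Real.log ((n + 1 : ℕ) : ℝ)) -
            ∫ x in (Real.log n)..(Real.log ((n + 1 : ℕ) : ℝ)), g x) -
          (A n - Real.log n) * (g (Real.log ((n + 1 : ℕ) : ℝ)) - g (Real.log n)) := by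
        rw [hi]
        linear_combination hstep
      rw [h5]
      refine (abs_sub _ _).trans ?_
      have h6 := abs_add_le (S n - (∫ x in (0 : ℝ)..Real.log n, g x) -
        (A n - Real.log n) * g (Real.log n))
        ((Real.log ((n + 1 : ℕ) : ℝ) - Real.log n) * g (Real.log ((n + 1 : ℕ) : ℝ)) -
            ∫ x in (Real.log n)..(Real.log ((n + 1 : ℕ) : ℝ)), g x)
      nlinarith
  have h1 := key M hM
  have h2 : |(A M - Real.log M) * g (Real.log M)| ≤ E₀ * B₁ := by
    rw [abs_mul]
    exact mul_le_mul (hE₀ M hM) (hbd _) (abs_nonneg _) hE0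
  have h3 : D * cl (Real.log M) - D * cl 0 ≤ D * (x₁ - x₀) := by
    have := mul_le_mul_of_nonneg_left (hclb (Real.log M)).2 hD
    have := mul_le_mul_of_nonneg_left (hclb 0).1 hD
    linarith
  have h4 : |S M - ∫ x in (0 : ℝ)..Real.log M, g x| ≤
      (1 + E₀) * (D * cl (Real.log M) - D * cl 0) + E₀ * B₁ := by
    have h5 : S M - (∫ x in (0 : ℝ)..Real.log M, g x) =
        (S M - (∫ x in (0 : ℝ)..Real.log M, g x) - (A M - Real.log M) * g (Real.log M)) +
          (A M - Real.log M) * g (Real.log M) := by ring
    rw [h5]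
    refine (abs_add_le _ _).trans ?_
    linarith
  refine h4.trans ?_
  have h5 := mul_le_mul_of_nonneg_left h3 (by linarith : (0 : ℝ) ≤ 1 + E₀)
  nlinarith

end Pool.Agent.Q222.UM
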