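import Pool.Agent.Q97.UM.Stm6
import Pool.Agent.H255R2.SI.T01
import Pool.Agent.H793R2.SI.ConvS
import Pool.Agent.H218R2.SI3
import Pool.Agent.H228R2.SIConst

/-!
# Project UM2, job MTW: the Montgomery-Taylor window
-/

set_option autoImplicit false

namespace Pool.Agent.Q222.UM

open Filter Topology Pool.Agent.Q97.UM

theorem t_MTW : S_MTW := by
  intro ε hε
  have hs2 : (0 : ℝ) < Real.sqrt 2 := by positivity
  have hs2' : (1 : ℝ) ≤ Real.sqrt 2 := by
    rw [Real.one_le_sqrt]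
    norm_num
  have hsin : Real.sin (1 / Real.sqrt 2) ≠ 0 := by
    apply (Real.sin_pos_of_pos_of_lt_pi (by positivity) ?_).ne'
    have h1 : 1 / Real.sqrt 2 ≤ 1 := by
      rw [div_le_one hs2]
      exact hs2'
    have := Real.pi_gt_three
    linarith
  have hc : ContinuousAt H295SI.cc 1 := by
    have h1 : ContinuousAt (fun h : ℝ => Real.cot (h / Real.sqrt 2)) 1 := by
      have h2 : (fun h : ℝ => Real.cot (h / Real.sqrt 2)) =
          fun h : ℝ => Real.cos (h / Real.sqrt 2) / Real.sin (h / Real.sqrt 2) := by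
        funext h
        rw [Real.cot_eq_cos_div_sin]
      rw [h2]
      apply ContinuousAt.div
      · fun_prop
      · fun_prop
      · exact hsin
    unfold H295SI.cc
    exact (continuousAt_id.div_const 2).add (h1.div_const _)
  have h1 : H295SI.cc 1 = H370.cMTinv := rfl
  have h2 : ∀ᶠ h in 𝓝 (1 : ℝ), H295SI.cc h < H370.cMTinv + ε :=
    hc.eventually_lt_const (by rw [h1]; linarith)
  have h3 : ∀ᶠ h in 𝓝[<] (1 : ℝ), H295SI.cc h < H370.cMTinv + ε := h2.filter_mono nhdsWithin_le_nhds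
  have h4 : ∀ᶠ h in 𝓝[<] (1 : ℝ), h ∈ Set.Ioo (0 : ℝ) 1 := Ioo_mem_nhdsLT one_pos
  obtain ⟨lam, h5, h6⟩ := (h3.and h4).exists
  have hs0 : 0 < Real.sqrt 2 * lam := mul_pos hs2 h6.1
  have hs1 : Real.sqrt 2 * lam ≤ Real.sqrt 2 := by
    have := mul_le_mul_of_nonneg_left h6.2.le hs2.le
    rwa [mul_one] at this
  refine ⟨lam, H295SI.gS (Real.sqrt 2 * lam), H295SI.RS (Real.sqrt 2 * lam), h6.1, h6.2,
    H255SI.winS _ hs0 hs1, H793SI.convS _ hs0 hs1, H218SI3.kSqS _ hs0 hs1, ?_⟩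
  rw [H228SI.constS lam h6.1 h6.2.le]
  exact h5.le

end Pool.Agent.Q222.UM
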