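import Pool.Agent.Q97.UM.Stm6
import Pool.Agent.Q84.UM.MVL

/-!
# Project UM2, job MV2: the mean value theorem for Dirichlet polynomials with a crude error
-/

set_option autoImplicit false

open Filter Topology MeasureTheory Complex

namespace Pool.Agent.Q222.UM

open Pool.Agent.Q97.UM Pool.Agent.Q84.UM

lemma log_sep_lin {M m n : ℕ} (hm : 1 ≤ m) (hmn : m < n) (hn : n ≤ M) :
    ((n : ℝ) - m) / M ≤ Real.log n - Real.log m := by
  have hm0 : (0 : ℝ) < m := by exact_mod_cast hm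
  have hn0 : (0 : ℝ) < n := by exact_mod_cast (by omega : 0 < n)
  have hnM : (n : ℝ) ≤ M := by exact_mod_cast hn
  have hmn' : (m : ℝ) < n := by exact_mod_cast hmn
  rw [← Real.log_div hn0.ne' hm0.ne']
  refine le_trans ?_ (Real.one_sub_inv_le_log_of_pos (div_pos hn0 hm0))
  rw [inv_div]
  have h1 : 1 - (m : ℝ) / n = ((n : ℝ) - m) / n := by
    field_simp
  rw [h1]
  exact div_le_div_of_nonneg_left (by linarith) hn0 hnM

lemma log_sep_lin' {M m n : ℕ} (hm : 1 ≤ m) (hm2 : m ≤ M) (hn : 1 ≤ n) (hn2 : n ≤ M)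
    (h : m ≠ n) : |(m : ℝ) - n| / M ≤ |Real.log m - Real.log n| := by
  rcases lt_or_gt_of_ne h with h1 | h1
  · have h2 := log_sep_lin hm h1 hn2
    rw [abs_sub_comm, abs_sub_comm (Real.log m)]
    have h3 : (0 : ℝ) ≤ (n : ℝ) - m := by
      have : (m : ℝ) < n := by exact_mod_cast h1
      linarith
    rw [abs_of_nonneg h3]
    exact h2.trans (le_abs_self _)
  · have h2 := log_sep_lin hn h1 hm2
    have h3 : (0 : ℝ) ≤ (m : ℝ) - n := by
      have : (n : ℝ) < m := by exact_mod_cast h1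
      linarith
    rw [abs_of_nonneg h3]
    exact h2.trans (le_abs_self _)

lemma sum_inv_le (M : ℕ) : ∑ k ∈ Finset.Icc 1 M, (1 : ℝ) / k ≤ 1 + Real.log M := by
  have h := harmonic_le_one_add_log M
  rw [harmonic_eq_sum_Icc] at h
  push_cast at h
  simpa [one_div] using h

lemma sum_dist_le (M m : ℕ) (hm : 1 ≤ m) (hm2 : m ≤ M) :
    ∑ n ∈ Finset.Icc 1 M, (if m = n then (0 : ℝ) else 1 / |(m : ℝ) - n|) ≤
      2 * (1 + Real.log M) := by
  classical
  have h0 : ∀ k ∈ Finset.Icc 1 M, (0 : ℝ) ≤ 1 / (k : ℝ) := fun k _ => by positivity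
  have h1 : ∑ n ∈ Finset.Icc 1 M, (if m = n then (0 : ℝ) else 1 / |(m : ℝ) - n|) =
      ∑ n ∈ (Finset.Icc 1 M).filter (fun n => n < m), 1 / |(m : ℝ) - n| +
      ∑ n ∈ (Finset.Icc 1 M).filter (fun n => m < n), 1 / |(m : ℝ) - n| := by
    rw [Finset.sum_filter, Finset.sum_filter, ← Finset.sum_add_distrib]
    refine Finset.sum_congr rfl fun n _ => ?_
    rcases lt_trichotomy m n with h | h | h
    · rw [if_neg h.ne, if_neg (by omega), if_pos h, zero_add]
    · rw [if_pos h, if_neg (by omega), if_neg (by omega), zero_add]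
    · rw [if_neg (by omega), if_pos h, if_neg (by omega), add_zero]
  have h2 : ∑ n ∈ (Finset.Icc 1 M).filter (fun n => n < m), 1 / |(m : ℝ) - n| ≤
      ∑ k ∈ Finset.Icc 1 M, (1 : ℝ) / k := by
    have e1 : ∑ n ∈ (Finset.Icc 1 M).filter (fun n => n < m), 1 / |(m : ℝ) - n| =
        ∑ k ∈ ((Finset.Icc 1 M).filter (fun n => n < m)).image (fun n => m - n), (1 : ℝ) / k := by
      rw [Finset.sum_image]
      · refine Finset.sum_congr rfl fun n hn => ?_
        rw [Finset.mem_filter, Finset.mem_Icc] at hn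
        rw [Nat.cast_sub hn.2.le, abs_of_nonneg]
        have : (n : ℝ) < m := by exact_mod_cast hn.2
        linarith
      · intro a ha b hb hab
        simp only [Finset.coe_filter, Finset.mem_Icc, Set.mem_ofPred_eq] at ha hb hab
        omega
    rw [e1]
    refine Finset.sum_le_sum_of_subset_of_nonneg ?_ fun k hk _ => h0 k hk
    intro k hk
    rw [Finset.mem_image] at hk
    obtain ⟨n, hn, rfl⟩ := hk
    rw [Finset.mem_filter, Finset.mem_Icc] at hn
    rw [Finset.mem_Icc]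
    omega
  have h3 : ∑ n ∈ (Finset.Icc 1 M).filter (fun n => m < n), 1 / |(m : ℝ) - n| ≤
      ∑ k ∈ Finset.Icc 1 M, (1 : ℝ) / k := by
    have e1 : ∑ n ∈ (Finset.Icc 1 M).filter (fun n => m < n), 1 / |(m : ℝ) - n| =
        ∑ k ∈ ((Finset.Icc 1 M).filter (fun n => m < n)).image (fun n => n - m), (1 : ℝ) / k := by
      rw [Finset.sum_image]
      · refine Finset.sum_congr rfl fun n hn => ?_
        rw [Finset.mem_filter, Finset.mem_Icc] at hn
        rw [Nat.cast_sub hn.2.le, abs_sub_comm, abs_of_nonneg]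
        have : (m : ℝ) < n := by exact_mod_cast hn.2
        linarith
      · intro a ha b hb hab
        simp only [Finset.coe_filter, Finset.mem_Icc, Set.mem_ofPred_eq] at ha hb hab
        omega
    rw [e1]
    refine Finset.sum_le_sum_of_subset_of_nonneg ?_ fun k hk _ => h0 k hk
    intro k hk
    rw [Finset.mem_image] at hk
    obtain ⟨n, hn, rfl⟩ := hk
    rw [Finset.mem_filter, Finset.mem_Icc] at hn
    rw [Finset.mem_Icc]
    omega
  have h4 := sum_inv_le M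
  rw [h1]
  linarith

theorem t_MV2 : S_MV2 := by
  refine ⟨4, by norm_num, ?_⟩
  intro a b hab M c hM
  have hM0 : (0 : ℝ) < M := by exact_mod_cast hM
  rw [← Real.norm_eq_abs, ← Complex.norm_real, Complex.ofReal_sub, int_sq]
  have e : (((b - a) * N2 M c : ℝ) : ℂ) = ∑ m ∈ Finset.Icc 1 M, ∑ n ∈ Finset.Icc 1 M,
      if m = n then (((b - a) * (‖c m‖ ^ 2 / m) : ℝ) : ℂ) else 0 := by
    unfold N2
    rw [Finset.mul_sum, Complex.ofReal_sum]
    refine Finset.sum_congr rfl fun m hm => ?_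
    rw [Finset.sum_ite_eq, if_pos hm]
  rw [e, ← Finset.sum_sub_distrib]
  have hterm : ∀ m ∈ Finset.Icc 1 M, ∀ n ∈ Finset.Icc 1 M,
      ‖(c m * (starRingEnd ℂ) (c n) * (((Real.sqrt m)⁻¹ * (Real.sqrt n)⁻¹ : ℝ) : ℂ)) *
        (∫ t in a..b, cexp (-(I * ((Real.log m - Real.log n : ℝ) : ℂ)) * (t : ℂ))) -
        (if m = n then (((b - a) * (‖c m‖ ^ 2 / m) : ℝ) : ℂ) else 0)‖ ≤
      M * ((‖c m‖ ^ 2 / m) * (if m = n then (0 : ℝ) else 1 / |(m : ℝ) - n|)) +
      M * ((‖c n‖ ^ 2 / n) * (if n = m then (0 : ℝ) else 1 / |(n : ℝ) - m|)) := by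
    intro m hm n hn
    rw [Finset.mem_Icc] at hm hn
    by_cases h : m = n
    · subst h
      have h1 : (∫ t in a..b, cexp (-(I * ((Real.log m - Real.log m : ℝ) : ℂ)) * (t : ℂ))) =
          ((b - a : ℝ) : ℂ) := by
        simp only [sub_self, Complex.ofReal_zero, mul_zero, neg_zero, zero_mul, Complex.exp_zero]
        rw [intervalIntegral.integral_const]
        simp
      rw [h1, if_pos rfl]
      have h2 : c m * (starRingEnd ℂ) (c m) * (((Real.sqrt m)⁻¹ * (Real.sqrt m)⁻¹ : ℝ) : ℂ) *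
          ((b - a : ℝ) : ℂ) - (((b - a) * (‖c m‖ ^ 2 / m) : ℝ) : ℂ) = 0 := by
        rw [Complex.mul_conj, Complex.normSq_eq_norm_sq, ← mul_inv,
          Real.mul_self_sqrt (Nat.cast_nonneg m)]
        push_cast
        ring
      rw [h2, norm_zero]
      simp
    · have h' : n ≠ m := fun hh => h hh.symm
      rw [if_neg h, if_neg h', if_neg h, sub_zero, norm_mul, norm_mul, norm_mul,
        RCLike.norm_conj, Complex.norm_real, Real.norm_eq_abs, abs_of_nonneg (by positivity)]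
      have hd : 0 < |(m : ℝ) - n| := abs_pos.2 (sub_ne_zero.2 (by exact_mod_cast h))
      have h1 : ‖∫ t in a..b, cexp (-(I * ((Real.log m - Real.log n : ℝ) : ℂ)) * (t : ℂ))‖ ≤
          2 * M * (1 / |(m : ℝ) - n|) := by
        have h3 := log_sep_lin' hm.1 hm.2 hn.1 hn.2 h
        have h4 : (0 : ℝ) < |(m : ℝ) - n| / M := by positivity
        have h5 : Real.log m - Real.log n ≠ 0 := by
          intro h6
          rw [h6, abs_zero] at h3
          linarith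
        refine (int_osc _ h5 _ _).trans ?_
        refine (div_le_div_of_nonneg_left (by norm_num) h4 h3).trans (le_of_eq ?_)
        field_simp
      have hm0 : (0 : ℝ) < m := by exact_mod_cast hm.1
      have hn0 : (0 : ℝ) < n := by exact_mod_cast hn.1
      have h2 : ‖c m‖ * ‖c n‖ * ((Real.sqrt m)⁻¹ * (Real.sqrt n)⁻¹) ≤
          1 / 2 * (‖c m‖ ^ 2 / m + ‖c n‖ ^ 2 / n) := by
        have e1 : ‖c m‖ ^ 2 / m = (‖c m‖ * (Real.sqrt m)⁻¹) ^ 2 := by
          rw [mul_pow, inv_pow, Real.sq_sqrt hm0.le, div_eq_mul_inv]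
        have e2 : ‖c n‖ ^ 2 / n = (‖c n‖ * (Real.sqrt n)⁻¹) ^ 2 := by
          rw [mul_pow, inv_pow, Real.sq_sqrt hn0.le, div_eq_mul_inv]
        rw [e1, e2]
        have := two_mul_le_add_sq (‖c m‖ * (Real.sqrt m)⁻¹) (‖c n‖ * (Real.sqrt n)⁻¹)
        linarith
      have h3 : (0 : ℝ) ≤ 2 * M * (1 / |(m : ℝ) - n|) := by positivity
      calc ‖c m‖ * ‖c n‖ * ((Real.sqrt m)⁻¹ * (Real.sqrt n)⁻¹) *
            ‖∫ t in a..b, cexp (-(I * ((Real.log m - Real.log n : ℝ) : ℂ)) * (t : ℂ))‖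
          ≤ (1 / 2 * (‖c m‖ ^ 2 / m + ‖c n‖ ^ 2 / n)) * (2 * M * (1 / |(m : ℝ) - n|)) :=
            mul_le_mul h2 h1 (norm_nonneg _) (by positivity)
        _ = _ := by
            rw [abs_sub_comm (n : ℝ) (m : ℝ)]
            ring
  have hsym : ∑ m ∈ Finset.Icc 1 M, ∑ n ∈ Finset.Icc 1 M,
      (M * ((‖c n‖ ^ 2 / n) * (if n = m then (0 : ℝ) else 1 / |(n : ℝ) - m|))) =
      ∑ m ∈ Finset.Icc 1 M, ∑ n ∈ Finset.Icc 1 M,
      (M * ((‖c m‖ ^ 2 / m) * (if m = n then (0 : ℝ) else 1 / |(m : ℝ) - n|))) :=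
    Finset.sum_comm
  have hmain : ∑ m ∈ Finset.Icc 1 M, ∑ n ∈ Finset.Icc 1 M,
      (M * ((‖c m‖ ^ 2 / m) * (if m = n then (0 : ℝ) else 1 / |(m : ℝ) - n|))) ≤
      2 * M * (1 + Real.log M) * N2 M c := by
    unfold N2
    rw [Finset.mul_sum]
    refine Finset.sum_le_sum fun m hm => ?_
    rw [Finset.mem_Icc] at hm
    rw [← Finset.mul_sum, ← Finset.mul_sum]
    have h1 := sum_dist_le M m hm.1 hm.2
    have h2 : (0 : ℝ) ≤ ‖c m‖ ^ 2 / m := by positivity
    calc (M : ℝ) * ((‖c m‖ ^ 2 / m) * ∑ n ∈ Finset.Icc 1 M,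
          (if m = n then (0 : ℝ) else 1 / |(m : ℝ) - n|))
        ≤ M * ((‖c m‖ ^ 2 / m) * (2 * (1 + Real.log M))) :=
          mul_le_mul_of_nonneg_left (mul_le_mul_of_nonneg_left h1 h2) hM0.le
      _ = _ := by ring
  refine (norm_sum_le _ _).trans ?_
  have h1 : ∑ m ∈ Finset.Icc 1 M, ‖∑ n ∈ Finset.Icc 1 M,
        ((c m * (starRingEnd ℂ) (c n) * (((Real.sqrt m)⁻¹ * (Real.sqrt n)⁻¹ : ℝ) : ℂ)) *
        ∫ t in a..b, cexp (-(I * ((Real.log m - Real.log n : ℝ) : ℂ)) * (t : ℂ))) -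
        ∑ n ∈ Finset.Icc 1 M, (if m = n then (((b - a) * (‖c m‖ ^ 2 / m) : ℝ) : ℂ) else 0)‖ ≤
      ∑ m ∈ Finset.Icc 1 M, ∑ n ∈ Finset.Icc 1 M,
      (M * ((‖c m‖ ^ 2 / m) * (if m = n then (0 : ℝ) else 1 / |(m : ℝ) - n|)) +
      M * ((‖c n‖ ^ 2 / n) * (if n = m then (0 : ℝ) else 1 / |(n : ℝ) - m|))) := by
    refine Finset.sum_le_sum fun m hm => ?_
    rw [← Finset.sum_sub_distrib]
    exact (norm_sum_le _ _).trans (Finset.sum_le_sum fun n hn => hterm m hm n hn)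
  refine h1.trans ?_
  have h2 : ∑ m ∈ Finset.Icc 1 M, ∑ n ∈ Finset.Icc 1 M,
      (M * ((‖c m‖ ^ 2 / m) * (if m = n then (0 : ℝ) else 1 / |(m : ℝ) - n|)) +
      M * ((‖c n‖ ^ 2 / n) * (if n = m then (0 : ℝ) else 1 / |(n : ℝ) - m|))) =
      ∑ m ∈ Finset.Icc 1 M, ∑ n ∈ Finset.Icc 1 M,
      (M * ((‖c m‖ ^ 2 / m) * (if m = n then (0 : ℝ) else 1 / |(m : ℝ) - n|))) +
      ∑ m ∈ Finset.Icc 1 M, ∑ n ∈ Finset.Icc 1 M,
      (M * ((‖c n‖ ^ 2 / n) * (if n = m then (0 : ℝ) else 1 / |(n : ℝ) - m|))) := by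
    rw [← Finset.sum_add_distrib]
    exact Finset.sum_congr rfl fun m _ => Finset.sum_add_distrib
  rw [h2, hsym]
  linarith

end Pool.Agent.Q222.UM
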